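import Pool.Agent.Lib.MP_ad55ca_co.Upper.Stage

/-!
# MP_ad55ca_co (upper bound): chaining the stages
-/

open Filter Topology MeasureTheory Set

noncomputable section

namespace Pool.Agent.Lib.MP_ad55ca_co.Upper

variable {n : ℕ}

lemma sqrt_three_pos : (0 : ℝ) < √3 := Real.sqrt_pos.mpr (by norm_num)

/-- the value of the dipole profile at its inflection point `√3` -/
def A0 : ℝ := Y0 (√3)

lemma A0_pos : 0 < A0 := mul_pos sqrt_three_pos (Real.exp_pos _)

/-- distances to the centers are at least `√3 √t` inside the barrier -/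
lemma corner_dist {C t S : ℝ} (ht : 0 < t) (hS : |S| ≤ C - √(3 * t)) :
    √3 ≤ (C - S) / √t ∧ √3 ≤ (C + S) / √t := by
  have hst : 0 < √t := Real.sqrt_pos.mpr ht
  have e : √(3 * t) = √3 * √t := Real.sqrt_mul (by norm_num) t
  rw [e] at hS
  obtain ⟨h1, h2⟩ := abs_le.mp hS
  constructor
  · rw [le_div_iff₀ hst]; linarith
  · rw [le_div_iff₀ hst]; linarith

lemma sq_ge_three {x : ℝ} (hx : √3 ≤ x) : 3 ≤ x ^ 2 := by
  have h1 : (√3) ^ 2 = 3 := Real.sq_sqrt (by norm_num)
  have h2 := sqrt_three_pos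
  nlinarith

lemma corner_hyp {C F t0 t1 r : ℝ} {m k : ℕ} (ht0 : 0 < t0) (h01 : t0 ≤ t1) (hr : 0 < r)
    (rate : (m : ℝ) ≤ r * (m - k - 1)) (km : k + 1 < m) (hF : F * t1 < (k + 1) * A0) :
    StageHyp (sym Y0 2 C) (sym1 Y1 2 C) (sym2 Y2 2 C) (fun t => C - √(3 * t)) F (A0 / t1) r
      t0 t1 m k where
  pot := pot_sym hasDerivAt_Y0 hasDerivAt_Y1 Y_heat C
  cont := sym_cont cont_Y0 2 C
  t0_pos := ht0
  t01 := h01
  r_pos := hr
  rate := rate
  km := km
  β_cont := by fun_prop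
  β_anti := by
    intro x _ y _ hxy
    simp only
    have : √(3 * x) ≤ √(3 * y) := Real.sqrt_le_sqrt (by linarith)
    linarith
  f_nn := by
    intro t ht S hS
    have htp : 0 < t := lt_of_lt_of_le ht0 ht.1
    obtain ⟨h1, h2⟩ := corner_dist htp hS
    have h3 := sqrt_three_pos
    unfold sym fam
    have := Real.sqrt_nonneg t
    have h4 := Y0_nonneg (h3.le.trans h1)
    have h5 := Y0_nonneg (h3.le.trans h2)
    positivity
  F2_nn := by
    intro t ht S hS
    have htp : 0 < t := lt_of_lt_of_le ht0 ht.1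
    obtain ⟨h1, h2⟩ := corner_dist htp hS
    have h3 := sqrt_three_pos
    unfold sym2
    have := Real.sqrt_nonneg t
    have h4 := Y2_nonneg (h3.le.trans h1) (sq_ge_three h1)
    have h5 := Y2_nonneg (h3.le.trans h2) (sq_ge_three h2)
    positivity
  f_bd := by
    intro t ht S hS
    have htp : 0 < t := lt_of_lt_of_le ht0 ht.1
    obtain ⟨h1, h2⟩ := corner_dist htp hS.le
    have h3 := sqrt_three_pos
    have h4 := Y0_nonneg (h3.le.trans h1)
    have h5 := Y0_nonneg (h3.le.trans h2)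
    have hst : 0 < √t := Real.sqrt_pos.mpr htp
    have hsq : √t ^ 2 = t := Real.sq_sqrt htp.le
    have e : √(3 * t) = √3 * √t := Real.sqrt_mul (by norm_num) t
    have h6 : A0 / t1 ≤ A0 / t := div_le_div_of_nonneg_left A0_pos.le htp ht.2
    refine h6.trans ?_
    unfold sym fam
    rw [hsq]
    rcases abs_cases S with ⟨hs, _⟩ | ⟨hs, _⟩
    · have h7 : (C - S) / √t = √3 := by
        rw [div_eq_iff hst.ne', ← e]; linarith
      rw [h7]
      have : 0 ≤ Y0 ((C + S) / √t) / t := by positivity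
      unfold A0
      linarith
    · have h7 : (C + S) / √t = √3 := by
        rw [div_eq_iff hst.ne', ← e]; linarith
      rw [h7]
      have : 0 ≤ Y0 ((C - S) / √t) / t := by positivity
      unfold A0
      linarith
  Fc := by
    have ht1 : 0 < t1 := lt_of_lt_of_le ht0 h01
    rw [← mul_div_assoc, lt_div_iff₀ ht1]
    exact hF
  c_pos := div_pos A0_pos (lt_of_lt_of_le ht0 h01)

lemma early_hyp {b V F t0 t1 r : ℝ} {m k : ℕ} (hV : 0 < V) (ht0 : 0 < t0)
    (h01 : t0 ≤ t1) (hr : 0 < r) (rate : (m : ℝ) ≤ r * (m - k - 1)) (km : k + 1 < m)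
    (hF : F < (k + 1) * V) :
    StageHyp (fun S t => V * sym Q 0 b S t) (fun S t => V * sym1 Q1 0 b S t)
      (fun S t => V * sym2 Q2 0 b S t) (fun _ => b) F V r t0 t1 m k where
  pot := (pot_sym hasDerivAt_Q hasDerivAt_Q1 Q_heat b).const_mul V
  cont := continuousOn_const.mul (sym_cont cont_Q 0 b)
  t0_pos := ht0
  t01 := h01
  r_pos := hr
  rate := rate
  km := km
  β_cont := continuous_const
  β_anti := fun x _ y _ _ => le_rfl
  f_nn := by
    intro t ht S hS
    unfold sym fam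
    have h1 := Q_nonneg ((b - S) / √t)
    have h2 := Q_nonneg ((b + S) / √t)
    have := Real.sqrt_nonneg t
    positivity
  F2_nn := by
    intro t ht S hS
    obtain ⟨h1, h2⟩ := abs_le.mp hS
    unfold sym2
    have h5 := Real.sqrt_nonneg t
    have h3 : 0 ≤ Q2 ((b + S) / √t) := Q2_nonneg (div_nonneg (by linarith) h5)
    have h4 : 0 ≤ Q2 ((b - S) / √t) := Q2_nonneg (div_nonneg (by linarith) h5)
    positivity
  f_bd := by
    intro t ht S hS
    unfold sym fam
    have h5 := Real.sqrt_nonneg t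
    have h1 := Q_nonneg ((b - S) / √t)
    have h2 := Q_nonneg ((b + S) / √t)
    simp only [pow_zero, div_one]
    have h6 : 1 ≤ Q ((b - S) / √t) + Q ((b + S) / √t) := by
      rcases abs_cases S with ⟨hs, _⟩ | ⟨hs, _⟩
      · have h7 : b - S = 0 := by linarith
        rw [h7, zero_div, Q_zero]; linarith
      · have h7 : b + S = 0 := by linarith
        rw [h7, zero_div, Q_zero]; linarith
    nlinarith
  Fc := hF
  c_pos := hV

/-- chaining stages with the same potential -/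
theorem chain {A : Fin n → Fin n → ℝ} (hA : ∀ i j, A i j ^ 2 = 1) {f F1 F2 : ℝ → ℝ → ℝ}
    {β : ℝ → ℝ} {F : ℝ} {t : ℕ → ℝ} {M0 N0 : ℕ} (hMN : M0 ≤ N0)
    (H : ∀ l, M0 ≤ l → l < N0 → ∃ (c r : ℝ) (k : ℕ),
      StageHyp f F1 F2 β F c r (t l) (t (l + 1)) (l + 1) k ∧ r ≤ t (l + 1) - t l)
    (hx : ∃ x, State A f β F (t N0) N0 x) : ∃ x, State A f β F (t M0) M0 x := by
  induction N0, hMN using Nat.le_induction with
  | base => exact hx
  | succ l hl ih =>
    apply ih
    · intro l' h1 h2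
      exact H l' h1 (by omega)
    · obtain ⟨c, r, k, h1, h2⟩ := H l hl (by omega)
      obtain ⟨x, hx1, hx2, hx3, hx4⟩ := hx
      have h3 : ((l + 1 : ℕ) : ℝ) ≤ (((l + 1 : ℕ) : ℝ) - 1) + (t (l + 1) - t l) / r := by
        have : 1 ≤ (t (l + 1) - t l) / r := by rw [le_div_iff₀ h1.r_pos]; linarith
        linarith
      obtain ⟨y, hy⟩ := stage hA h1 (x0 := x) ⟨hx1, hx2.trans h3, hx3, hx4⟩
      refine ⟨y, ?_⟩
      have e : (((l + 1 : ℕ) : ℝ) - 1) = l := by push_cast; ring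
      rw [e] at hy
      exact hy

/-- the change of the potential -/
theorem transition {A : Fin n → Fin n → ℝ} {b s τ F Y : ℝ} (hs : √3 ≤ s)
    (hτ : 0 < τ) {x : Fin n → ℝ}
    (hx : State A (fun S t => Y0 s / τ * sym Q 0 b S t) (fun _ => b) F τ Y x) :
    State A (sym Y0 2 (b + s * √τ)) (fun t => b + s * √τ - √(3 * t)) F τ Y x := by
  obtain ⟨h1, h2, h3, h4⟩ := hx
  have hst : 0 < √τ := Real.sqrt_pos.mpr hτ
  have hsq : √τ ^ 2 = τ := Real.sq_sqrt hτ.le
  have hs0 : 0 < s := lt_of_lt_of_le sqrt_three_pos hs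
  have e : √(3 * τ) = √3 * √τ := Real.sqrt_mul (by norm_num) τ
  refine ⟨h1, h2, ?_, ?_⟩
  · intro i
    have := h3 i
    simp only
    rw [e]
    have : √3 * √τ ≤ s * √τ := mul_le_mul_of_nonneg_right hs hst.le
    simp only at *
    linarith
  · refine le_trans (Finset.sum_le_sum fun i _ => ?_) h4
    have h5 := abs_le.mp (h3 i)
    set S := row A x i
    have key : ∀ y : ℝ, 0 ≤ y → Y0 ((y + s * √τ) / √τ) / √τ ^ 2 ≤
        Y0 s / τ * (Q (y / √τ) / √τ ^ 0) := by
      intro y hy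
      have e2 : (y + s * √τ) / √τ = s + y / √τ := by field_simp; ring
      rw [e2, hsq, pow_zero, div_one]
      have := dom hs0 (sq_ge_three hs) (div_nonneg hy hst.le)
      rw [div_mul_eq_mul_div]
      exact div_le_div_of_nonneg_right this hτ.le
    simp only [sym, fam]
    rw [mul_add]
    have k1 := key (b - S) (by linarith)
    have k2 := key (b + S) (by linarith)
    have e3 : b + s * √τ - S = b - S + s * √τ := by ring
    have e4 : b + s * √τ + S = b + S + s * √τ := by ring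
    rw [e3, e4]
    exact add_le_add k1 k2

/-- rounding of the last fractional coordinates -/
theorem rounding {A : Fin n → Fin n → ℝ} (hA : ∀ i j, A i j ^ 2 = 1) {x : Fin n → ℝ}
    (hx : x ∈ cube n) (hY : (n : ℝ) - ∑ j, x j ^ 2 ≤ 1) {M : ℝ} (hM : ∀ i, |row A x i| ≤ M) :
    ∃ y : Fin n → ℝ, (∀ j, y j = 1 ∨ y j = -1) ∧ ∀ i, |row A y i| ≤ M + 1 := by
  have hx' := mem_cube.mp hx
  refine ⟨fun j => if 0 ≤ x j then 1 else -1, fun j => ?_, fun i => ?_⟩
  · by_cases h : 0 ≤ x j <;> simp [h]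
  · set y : Fin n → ℝ := fun j => if 0 ≤ x j then 1 else -1 with hy
    have h1 : row A y i = row A x i + ∑ j, A i j * (y j - x j) := by
      unfold row
      rw [← Finset.sum_add_distrib]
      exact Finset.sum_congr rfl fun j _ => by ring
    have h2 : |∑ j, A i j * (y j - x j)| ≤ 1 := by
      refine (Finset.abs_sum_le_sum_abs _ _).trans ?_
      have h3 : ∀ j, |A i j * (y j - x j)| ≤ 1 - x j ^ 2 := by
        intro j
        have ha : |A i j| = 1 := by
          have h4 : |A i j| ^ 2 = 1 := by rw [sq_abs]; exact hA i j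
          nlinarith [abs_nonneg (A i j)]
        rw [abs_mul, ha, one_mul]
        have h5 := abs_le.mp (hx' j)
        simp only [hy]
        split_ifs with h
        · rw [abs_of_nonneg (by linarith)]
          nlinarith
        · push Not at h
          rw [abs_of_nonpos (by linarith)]
          nlinarith
      refine (Finset.sum_le_sum fun j _ => h3 j).trans ?_
      have : ∑ j : Fin n, (1 - x j ^ 2) = (n : ℝ) - ∑ j, x j ^ 2 := by
        rw [Finset.sum_sub_distrib]; simp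
      rw [this]
      exact hY
    rw [h1]
    exact (abs_add_le _ _).trans (add_le_add (hM i) h2)

/-- the clock of the corner phase -/
def tau : ℕ → ℝ
  | 0 => 0
  | 1 => 1
  | (l + 2) => tau (l + 1) + ((l + 2 : ℕ) : ℝ) / ((l + 1 : ℕ) - ((l + 1) / 3 : ℕ) : ℝ)

lemma tau_succ {l : ℕ} (hl : 1 ≤ l) :
    tau (l + 1) = tau l + ((l + 1 : ℕ) : ℝ) / ((l : ℝ) - (l / 3 : ℕ)) := by
  obtain ⟨l, rfl⟩ : ∃ l', l = l' + 1 := ⟨l - 1, by omega⟩
  rw [tau]

lemma third_lt {l : ℕ} (hl : 1 ≤ l) : ((l / 3 : ℕ) : ℝ) < l := by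
  have : l / 3 < l := by omega
  exact_mod_cast this

lemma tau_step_pos {l : ℕ} (hl : 1 ≤ l) : 0 < ((l + 1 : ℕ) : ℝ) / ((l : ℝ) - (l / 3 : ℕ)) := by
  have := third_lt hl
  exact div_pos (by positivity) (by linarith)

lemma tau_pos {l : ℕ} (hl : 1 ≤ l) : 0 < tau l := by
  induction l, hl using Nat.le_induction with
  | base => simp [tau]
  | succ l hl ih =>
    rw [tau_succ hl]
    exact add_pos ih (tau_step_pos hl)

lemma tau_le_succ {l : ℕ} (hl : 1 ≤ l) : tau l ≤ tau (l + 1) := by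
  rw [tau_succ hl]
  linarith [tau_step_pos hl]

lemma tau_mono {l l' : ℕ} (hl : 1 ≤ l) (h : l ≤ l') : tau l ≤ tau l' := by
  induction l', h using Nat.le_induction with
  | base => exact le_rfl
  | succ l' h ih => exact ih.trans (tau_le_succ (hl.trans h))

lemma tau_three : tau 3 = 9 / 2 := by
  simp only [tau]
  norm_num

lemma tau_block {i : ℕ} (hi : 1 ≤ i) :
    tau (3 * (i + 1)) = tau (3 * i) + 9 / 2 + 1 / (2 * i) + 1 / (4 * i + 2) := by
  have e1 : (3 * i) / 3 = i := by omega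
  have e2 : (3 * i + 1) / 3 = i := by omega
  have e3 : (3 * i + 2) / 3 = i := by omega
  have hi' : (0 : ℝ) < i := by exact_mod_cast hi
  have h1 : tau (3 * i + 1) = tau (3 * i) + ((3 * i + 1 : ℕ) : ℝ) / (((3 * i : ℕ) : ℝ) - i) := by
    rw [tau_succ (by omega), e1]
  have h2 : tau (3 * i + 2) = tau (3 * i + 1) +
      ((3 * i + 2 : ℕ) : ℝ) / (((3 * i + 1 : ℕ) : ℝ) - i) := by
    rw [tau_succ (by omega), e2]
  have h3 : tau (3 * i + 3) = tau (3 * i + 2) +
      ((3 * i + 3 : ℕ) : ℝ) / (((3 * i + 2 : ℕ) : ℝ) - i) := by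
    rw [tau_succ (by omega), e3]
  have e : 3 * (i + 1) = 3 * i + 3 := by ring
  rw [e, h3, h2, h1]
  push_cast
  have d1 : (3 * (i : ℝ) - i) ≠ 0 := by nlinarith
  have d2 : (3 * (i : ℝ) + 1 - i) ≠ 0 := by nlinarith
  have d3 : (3 * (i : ℝ) + 2 - i) ≠ 0 := by nlinarith
  have f1 : (3 * (i : ℝ) + 1) / (3 * i - i) = 3 / 2 + 1 / (2 * i) := by
    have : (3 * (i : ℝ) - i) = 2 * i := by ring
    rw [this]; field_simp
  have f2 : (3 * (i : ℝ) + 2) / (3 * i + 1 - i) = 3 / 2 + 1 / (4 * i + 2) := by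
    have : (3 * (i : ℝ) + 1 - i) = 2 * i + 1 := by ring
    rw [this]
    have : (4 * (i : ℝ) + 2) = 2 * (2 * i + 1) := by ring
    rw [this]; field_simp; ring
  have f3 : (3 * (i : ℝ) + 3) / (3 * i + 2 - i) = 3 / 2 := by
    have : (3 * (i : ℝ) + 2 - i) = 2 * (i + 1) := by ring
    rw [this]; field_simp
  rw [f1, f2, f3]
  ring

/-- the constant `κ` -/
def kap : ℝ := 121 / 25

lemma tau_block_lt (i : ℕ) : tau (3 * (i + 1)) < kap * (i + 1) := by
  have t1 : tau (3 * (0 + 1)) = 9 / 2 := tau_three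
  have t2 : tau (3 * (1 + 1)) = 29 / 3 := by
    rw [tau_block (by norm_num), show 3 * 1 = 3 * (0 + 1) by norm_num, t1]; norm_num
  have t3 : tau (3 * (2 + 1)) = 871 / 60 := by
    rw [tau_block (by norm_num), show 3 * 2 = 3 * (1 + 1) by norm_num, t2]; norm_num
  unfold kap
  rcases Nat.lt_or_ge i 2 with h | h
  · interval_cases i
    · rw [t1]; norm_num
    · rw [t2]; norm_num
  · induction i, h using Nat.le_induction with
    | base => rw [t3]; norm_num
    | succ i hi ih =>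
      rw [tau_block (by omega)]
      have hi' : (3 : ℝ) ≤ ((i + 1 : ℕ) : ℝ) := by exact_mod_cast (by omega : 3 ≤ i + 1)
      have h1 : 1 / (2 * ((i + 1 : ℕ) : ℝ)) ≤ 1 / 6 :=
        one_div_le_one_div_of_le (by norm_num) (by linarith)
      have h2 : 1 / (4 * ((i + 1 : ℕ) : ℝ) + 2) ≤ 1 / 14 :=
        one_div_le_one_div_of_le (by norm_num) (by linarith)
      push_cast at *
      linarith

lemma tau_lt {l : ℕ} (hl : 1 ≤ l) : tau (l + 1) < kap * ((l / 3 : ℕ) + 1) := by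
  refine lt_of_le_of_lt ?_ (tau_block_lt (l / 3))
  exact tau_mono (by omega) (by omega)

lemma kap_pos : 0 < kap := by unfold kap; norm_num

/-- the corner phase -/
theorem corner {A : Fin n → Fin n → ℝ} (hA : ∀ i j, A i j ^ 2 = 1) {C : ℝ} {M0 : ℕ}
    (hM : 1 ≤ M0)
    (hx : ∃ x, State A (sym Y0 2 C) (fun t => C - √(3 * t)) (A0 / kap) (tau M0) M0 x) :
    ∃ y : Fin n → ℝ, (∀ j, y j = 1 ∨ y j = -1) ∧ ∀ i, |row A y i| ≤ C - √3 + 1 := by
  have H : ∀ l, 1 ≤ l → l < M0 → ∃ (c r : ℝ) (k : ℕ),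
      StageHyp (sym Y0 2 C) (sym1 Y1 2 C) (sym2 Y2 2 C) (fun t => C - √(3 * t)) (A0 / kap) c r
        (tau l) (tau (l + 1)) (l + 1) k ∧ r ≤ tau (l + 1) - tau l := by
    intro l hl _
    refine ⟨A0 / tau (l + 1), ((l + 1 : ℕ) : ℝ) / ((l : ℝ) - (l / 3 : ℕ)), l / 3,
      corner_hyp (C := C) (tau_pos hl) (tau_le_succ hl) (tau_step_pos hl) ?_ (by omega) ?_, ?_⟩
    · have := third_lt hl
      have e : (((l + 1 : ℕ) : ℝ) - ((l / 3 : ℕ) : ℝ) - 1) = (l : ℝ) - (l / 3 : ℕ) := by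
        push_cast; ring
      rw [e, div_mul_cancel₀ _ (by linarith)]
    · have h := tau_lt hl
      rw [div_mul_eq_mul_div, div_lt_iff₀ kap_pos]
      have := A0_pos
      nlinarith
    · rw [tau_succ hl]
      linarith
  obtain ⟨x, h1, h2, h3, _⟩ := chain hA hM H hx
  rw [Nat.cast_one] at h2
  have e : tau 1 = 1 := by simp [tau]
  rw [e] at h3
  simp only [mul_one] at h3
  exact rounding hA h1 h2 h3

/-- `κ_s` -/
def kaps (s : ℝ) : ℝ := kap * Y0 s / A0

/-- the main theorem in terms of the parameters -/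
theorem main_param {A : Fin n → Fin n → ℝ} (hA : ∀ i j, A i j ^ 2 = 1) {M0 q : ℕ} {s x0 : ℝ}
    {t : ℕ → ℝ} (hM : 1 ≤ M0) (hMn : M0 ≤ n) (hq : 1 ≤ q) (hqM : q ≤ M0) (hs : √3 ≤ s)
    (hx0 : 0 ≤ x0) (ht0 : t M0 = tau M0)
    (ht : ∀ l, M0 ≤ l → l < n → ((l : ℝ) + 1) / (l + 1 - q) ≤ t (l + 1) - t l)
    (h1 : tau M0 < q * kaps s) (h2 : 2 * n * kaps s * Q x0 ≤ tau M0) :
    ∃ y : Fin n → ℝ, (∀ j, y j = 1 ∨ y j = -1) ∧
      ∀ i, |row A y i| ≤ x0 * √(t n) + s * √(tau M0) - √3 + 1 := by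
  set b : ℝ := x0 * √(t n) with hb
  set V : ℝ := Y0 s / tau M0 with hV
  have hs0 : 0 < s := lt_of_lt_of_le sqrt_three_pos hs
  have hτ := tau_pos hM
  have hYs : 0 < Y0 s := mul_pos hs0 (Real.exp_pos _)
  have hVpos : 0 < V := div_pos hYs hτ
  have hqr : (1 : ℝ) ≤ q := by exact_mod_cast hq
  have hstep : ∀ l, M0 ≤ l → l < n → 0 < ((l : ℝ) + 1) / (l + 1 - q) := by
    intro l hl _
    have : (q : ℝ) ≤ l := by exact_mod_cast hqM.trans hl
    exact div_pos (by positivity) (by linarith)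
  have hmono : ∀ l, M0 ≤ l → l ≤ n → tau M0 ≤ t l := by
    intro l hl
    induction l, hl using Nat.le_induction with
    | base => intro _; exact ht0.ge
    | succ l hl ih =>
      intro hln
      have := ht l hl (by omega)
      have := hstep l hl (by omega)
      linarith [ih (by omega)]
  have htn : 0 < t n := lt_of_lt_of_le hτ (hmono n hMn le_rfl)
  have hstart : State A (fun S t => V * sym Q 0 b S t) (fun _ => b) (A0 / kap) (t n) n
      (0 : Fin n → ℝ) := by
    have hr : ∀ i, row A (0 : Fin n → ℝ) i = 0 := fun i => by simp [row]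
    refine ⟨mem_cube.mpr fun j => by simp, by simp, fun i => ?_, ?_⟩
    · rw [hr i, abs_zero]
      exact mul_nonneg hx0 (Real.sqrt_nonneg _)
    · simp only [hr, Finset.sum_const, Finset.card_univ, Fintype.card_fin, nsmul_eq_mul]
      have hst : √(t n) ≠ 0 := (Real.sqrt_pos.mpr htn).ne'
      have e : b / √(t n) = x0 := by rw [hb]; field_simp
      simp only [sym, fam, sub_zero, add_zero, pow_zero, div_one, e]
      rw [le_div_iff₀ kap_pos, hV]
      unfold kaps at h2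
      have h3 : 2 * n * (kap * Y0 s / A0) * Q x0 = (2 * n * (kap * Y0 s) * Q x0) / A0 := by ring
      rw [h3, div_le_iff₀ A0_pos] at h2
      have h4 : (n : ℝ) * (Y0 s / tau M0 * (Q x0 + Q x0)) * kap =
          (2 * n * (kap * Y0 s) * Q x0) / tau M0 := by ring
      rw [h4, div_le_iff₀ hτ, mul_comm A0]
      exact h2
  have hearly : ∃ x, State A (fun S t => V * sym Q 0 b S t) (fun _ => b) (A0 / kap) (t M0) M0 x := by
    refine chain hA hMn (fun l hl hln => ⟨V, ((l : ℝ) + 1) / (l + 1 - q), q - 1,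
      early_hyp hVpos ?_ ?_ (hstep l hl hln) ?_ (by omega) ?_, ht l hl hln⟩) ⟨0, hstart⟩
    · exact lt_of_lt_of_le hτ (hmono l hl hln.le)
    · linarith [ht l hl hln, hstep l hl hln]
    · have hql : (q : ℝ) ≤ l := by exact_mod_cast hqM.trans hl
      have e : ((q - 1 : ℕ) : ℝ) = q - 1 := by rw [Nat.cast_sub hq]; simp
      rw [e]
      push_cast
      have e2 : (l : ℝ) + 1 - (q - 1) - 1 = l + 1 - q := by ring
      rw [e2, div_mul_cancel₀ _ (by linarith)]
    · have e : ((q - 1 : ℕ) : ℝ) = q - 1 := by rw [Nat.cast_sub hq]; simp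
      rw [e, div_lt_iff₀ kap_pos, hV]
      unfold kaps at h1
      have h3 : (q : ℝ) * (kap * Y0 s / A0) = (q * (kap * Y0 s)) / A0 := by ring
      rw [h3, lt_div_iff₀ A0_pos] at h1
      have h4 : ((q : ℝ) - 1 + 1) * (Y0 s / tau M0) * kap = (q * (kap * Y0 s)) / tau M0 := by ring
      rw [h4, lt_div_iff₀ hτ, mul_comm A0]
      exact h1
  obtain ⟨x, hx⟩ := hearly
  rw [ht0] at hx
  have hx' := transition hs hτ hx
  obtain ⟨y, hy1, hy2⟩ := corner hA hM ⟨x, hx'⟩
  exact ⟨y, hy1, fun i => hy2 i⟩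

end Pool.Agent.Lib.MP_ad55ca_co.Upper
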