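import Mathlib

/-!
# MP_ad55ca_co (upper bound): choice of the direction
-/

open Module

noncomputable section

namespace Pool.Agent.Lib.MP_ad55ca_co.Upper

variable {n : ℕ}

abbrev E (n : ℕ) : Type := EuclideanSpace ℝ (Fin n)

lemma inner_eq (x y : E n) : inner ℝ x y = ∑ j, x j * y j := by
  simp [PiLp.inner_apply, mul_comm]

/-- There is a unit vector `v` supported on `L`, orthogonal to the rows in `B` and to `h`, for which
the weighted energy is at most the average. -/
theorem exists_dir (A : Fin n → Fin n → ℝ) (hA : ∀ i j, A i j ^ 2 = 1) (L B : Finset (Fin n))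
    (h : Fin n → ℝ) (wt : Fin n → ℝ) (hw : ∀ i, 0 ≤ wt i) (hd : B.card + 1 < L.card) :
    ∃ v : Fin n → ℝ, (∀ j ∉ L, v j = 0) ∧ (∀ i ∈ B, ∑ j, A i j * v j = 0) ∧
      ∑ j, h j * v j = 0 ∧ ∑ j, v j ^ 2 = 1 ∧
      ((L.card : ℝ) - B.card - 1) * ∑ i, wt i * (∑ j, A i j * v j) ^ 2 ≤
        L.card * ∑ i ∈ Bᶜ, wt i := by
  classical
  -- the vectors which have to be orthogonal to `v`
  set T : Finset (E n) := (Lᶜ.image fun j => EuclideanSpace.single j (1 : ℝ)) ∪
    ((B.image fun i => (WithLp.toLp 2 (A i) : E n)) ∪ {(WithLp.toLp 2 h : E n)}) with hT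
  set K : Submodule ℝ (E n) := Submodule.span ℝ (T : Set (E n)) with hK
  have hKfin : finrank ℝ K ≤ (n - L.card) + (B.card + 1) := by
    have h1 : finrank ℝ K ≤ T.card := finrank_span_finset_le_card T
    have h2 : T.card ≤ Lᶜ.card + (B.card + 1) := by
      refine (Finset.card_union_le _ _).trans (add_le_add Finset.card_image_le ?_)
      refine (Finset.card_union_le _ _).trans (add_le_add Finset.card_image_le ?_)
      simp
    rw [Finset.card_compl, Fintype.card_fin] at h2
    omega
  have hLn : L.card ≤ n := by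
    have := Finset.card_le_univ L
    simpa using this
  set W : Submodule ℝ (E n) := Kᗮ with hW
  have hWfin : L.card - (B.card + 1) ≤ finrank ℝ W := by
    have h1 := Submodule.finrank_add_finrank_orthogonal K
    rw [finrank_euclideanSpace_fin] at h1
    rw [← hW] at h1
    omega
  set d : ℕ := finrank ℝ W with hd'
  have hdpos : 0 < d := by omega
  let b := stdOrthonormalBasis ℝ W
  -- orthogonality
  have horth : ∀ (w : W) (u : E n), u ∈ T → inner ℝ u (w : E n) = 0 := by
    intro w u hu
    exact (Submodule.mem_orthogonal K (w : E n)).mp w.2 u (Submodule.subset_span hu)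
  have hsupp : ∀ (w : W) (j : Fin n), j ∉ L → (w : E n) j = 0 := by
    intro w j hj
    have h1 := horth w (EuclideanSpace.single j (1 : ℝ)) (by
      rw [hT]
      exact Finset.mem_union_left _ (Finset.mem_image_of_mem _ (Finset.mem_compl.mpr hj)))
    rw [EuclideanSpace.inner_single_left] at h1
    simpa using h1
  have hrow : ∀ (w : W) (i : Fin n), i ∈ B → ∑ j, A i j * (w : E n) j = 0 := by
    intro w i hi
    have h1 := horth w (WithLp.toLp 2 (A i)) (by
      rw [hT]
      exact Finset.mem_union_right _ (Finset.mem_union_left _ (Finset.mem_image_of_mem _ hi)))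
    rw [inner_eq] at h1
    exact h1
  have hh : ∀ (w : W), ∑ j, h j * (w : E n) j = 0 := by
    intro w
    have h1 := horth w (WithLp.toLp 2 h) (by
      rw [hT]
      exact Finset.mem_union_right _ (Finset.mem_union_right _ (Finset.mem_singleton_self _)))
    rw [inner_eq] at h1
    exact h1
  -- Bessel
  have hbessel : ∀ i, ∑ l, (∑ j, A i j * (b l : E n) j) ^ 2 ≤ L.card := by
    intro i
    set u : E n := WithLp.toLp 2 (fun j => if j ∈ L then A i j else 0) with hu
    have hort : Orthonormal ℝ (fun l => (b l : E n)) := by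
      have := b.orthonormal
      exact this.comp_linearIsometry W.subtypeₗᵢ
    have h1 := hort.sum_inner_products_le (s := Finset.univ) u
    have h2 : ‖u‖ ^ 2 = L.card := by
      rw [EuclideanSpace.norm_sq_eq]
      have : ∀ j, ‖u j‖ ^ 2 = if j ∈ L then (1 : ℝ) else 0 := by
        intro j
        simp only [hu]
        by_cases hj : j ∈ L
        · simp [hj, hA i j]
        · simp [hj]
      simp only [this]
      simp
    rw [h2] at h1
    refine le_trans (le_of_eq ?_) h1
    refine Finset.sum_congr rfl fun l _ => ?_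
    rw [Real.norm_eq_abs, sq_abs]
    congr 1
    rw [inner_eq]
    refine Finset.sum_congr rfl fun j _ => ?_
    simp only [hu]
    by_cases hj : j ∈ L
    · simp [hj, mul_comm]
    · simp [hj, hsupp (b l) j hj]
  -- averaging
  set X : Fin d → ℝ := fun l => ∑ i, wt i * (∑ j, A i j * (b l : E n) j) ^ 2 with hX
  have hXnn : ∀ l, 0 ≤ X l := fun l =>
    Finset.sum_nonneg fun i _ => mul_nonneg (hw i) (sq_nonneg _)
  have hXsum : ∑ l, X l ≤ L.card * ∑ i ∈ Bᶜ, wt i := by
    simp only [hX]
    rw [Finset.sum_comm]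
    have h1 : ∀ i, ∑ l, wt i * (∑ j, A i j * (b l : E n) j) ^ 2 ≤
        if i ∈ Bᶜ then L.card * wt i else 0 := by
      intro i
      rw [← Finset.mul_sum]
      by_cases hi : i ∈ B
      · have : ∀ l, (∑ j, A i j * (b l : E n) j) ^ 2 = 0 := by
          intro l
          rw [hrow (b l) i hi]
          norm_num
        simp [this, hi]
      · rw [if_pos (Finset.mem_compl.mpr hi), mul_comm]
        exact mul_le_mul_of_nonneg_right (hbessel i) (hw i)
    refine (Finset.sum_le_sum fun i _ => h1 i).trans (le_of_eq ?_)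
    rw [← Finset.sum_filter, Finset.mul_sum]
    refine Finset.sum_congr ?_ fun _ _ => rfl
    ext i; simp
  have : Nonempty (Fin d) := ⟨⟨0, hdpos⟩⟩
  obtain ⟨l, _, hl⟩ := Finset.exists_min_image Finset.univ X Finset.univ_nonempty
  refine ⟨fun j => (b l : E n) j, fun j hj => hsupp (b l) j hj, fun i hi => hrow (b l) i hi,
    hh (b l), ?_, ?_⟩
  · have h1 : ‖(b l : E n)‖ = 1 := by
      rw [← Submodule.coe_norm]
      exact b.orthonormal.1 l
    have h2 := EuclideanSpace.norm_sq_eq (b l : E n)
    rw [h1] at h2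
    simp only [Real.norm_eq_abs, sq_abs] at h2
    linarith
  · show ((L.card : ℝ) - B.card - 1) * X l ≤ L.card * ∑ i ∈ Bᶜ, wt i
    have h1 : (d : ℝ) * X l ≤ ∑ l', X l' := by
      have := Finset.card_nsmul_le_sum Finset.univ X (X l) (fun l' hl' => hl l' hl')
      simpa using this
    have h2 : ((L.card : ℝ) - B.card - 1) ≤ d := by
      have h3 : L.card ≤ d + (B.card + 1) := by omega
      have h4 : (L.card : ℝ) ≤ d + (B.card + 1) := by exact_mod_cast h3
      linarith
    calc ((L.card : ℝ) - B.card - 1) * X l ≤ d * X l := mul_le_mul_of_nonneg_right h2 (hXnn l)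
      _ ≤ ∑ l', X l' := h1
      _ ≤ _ := hXsum

end Pool.Agent.Lib.MP_ad55ca_co.Upper
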