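import Mathlib

/-!
# MP_ad55ca_co (upper bound): the two-sided Gaussian tail and the profiles of the potentials
-/

open Filter Topology MeasureTheory Set

noncomputable section

namespace Pool.Agent.Lib.MP_ad55ca_co.Upper

/-- `√(2/π)` -/
def c0 : ℝ := √(2 / Real.pi)

lemma c0_pos : 0 < c0 := Real.sqrt_pos.mpr (by positivity)

/-- `P(|Z| ≥ x)` for a standard Gaussian `Z` (and `x ≥ 0`) -/
def Q (x : ℝ) : ℝ := 1 - c0 * ∫ u in (0 : ℝ)..x, Real.exp (-(u ^ 2 / 2))

/-- the derivative of `Q` -/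
def Q1 (x : ℝ) : ℝ := - (c0 * Real.exp (-(x ^ 2 / 2)))

/-- the second derivative of `Q` -/
def Q2 (x : ℝ) : ℝ := c0 * (x * Real.exp (-(x ^ 2 / 2)))

lemma cont_gauss : Continuous fun u : ℝ => Real.exp (-(u ^ 2 / 2)) := by fun_prop

lemma hasDerivAt_gauss (x : ℝ) :
    HasDerivAt (fun u : ℝ => Real.exp (-(u ^ 2 / 2))) (-(x * Real.exp (-(x ^ 2 / 2)))) x := by
  have h1 : HasDerivAt (fun u : ℝ => -(u ^ 2 / 2)) (-x) x := by
    have := ((hasDerivAt_pow 2 x).div_const 2).fun_neg
    refine this.congr_deriv ?_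
    simp
  have h2 := h1.exp
  convert h2 using 1
  ring

lemma Q_zero : Q 0 = 1 := by simp [Q]

lemma hasDerivAt_Q (x : ℝ) : HasDerivAt Q (Q1 x) x := by
  have h1 : HasDerivAt (fun x => ∫ u in (0 : ℝ)..x, Real.exp (-(u ^ 2 / 2)))
      (Real.exp (-(x ^ 2 / 2))) x :=
    intervalIntegral.integral_hasDerivAt_right (cont_gauss.intervalIntegrable _ _)
      (cont_gauss.stronglyMeasurableAtFilter _ _) cont_gauss.continuousAt
  have h2 := (h1.const_mul c0).const_sub 1
  exact h2

lemma hasDerivAt_Q1 (x : ℝ) : HasDerivAt Q1 (Q2 x) x := by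
  have h1 := ((hasDerivAt_gauss x).const_mul c0).fun_neg
  refine h1.congr_deriv ?_
  unfold Q2
  ring

lemma Q_heat (x : ℝ) : Q2 x = -(x * Q1 x + (0 : ℕ) * Q x) := by
  unfold Q1 Q2
  push_cast
  ring

lemma cont_Q : Continuous Q := continuous_iff_continuousAt.mpr fun x => (hasDerivAt_Q x).continuousAt

lemma tendsto_Q : Tendsto Q atTop (𝓝 0) := by
  have hint : IntegrableOn (fun u : ℝ => Real.exp (-(u ^ 2 / 2))) (Ioi 0) volume := by
    have h := (integrable_exp_neg_mul_sq (b := 1 / 2) (by norm_num)).integrableOn (s := Ioi (0 : ℝ))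
    refine h.congr_fun (fun u _ => ?_) measurableSet_Ioi
    show Real.exp (-(1 / 2) * u ^ 2) = Real.exp (-(u ^ 2 / 2))
    congr 1; ring
  have h1 := intervalIntegral_tendsto_integral_Ioi (μ := volume) (0 : ℝ) hint tendsto_id
  have h2 : ∫ u in Ioi (0 : ℝ), Real.exp (-(u ^ 2 / 2)) = √(Real.pi / (1 / 2)) / 2 := by
    rw [← integral_gaussian_Ioi (1 / 2)]
    refine setIntegral_congr_fun measurableSet_Ioi (fun u _ => ?_)
    show Real.exp (-(u ^ 2 / 2)) = Real.exp (-(1 / 2) * u ^ 2)
    congr 1; ring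
  rw [h2] at h1
  have h3 : c0 * (√(Real.pi / (1 / 2)) / 2) = 1 := by
    unfold c0
    rw [← mul_div_assoc, ← Real.sqrt_mul (by positivity)]
    have : 2 / Real.pi * (Real.pi / (1 / 2)) = 2 ^ 2 := by
      have := Real.pi_ne_zero
      field_simp
      try norm_num
    rw [this, Real.sqrt_sq (by norm_num)]
    norm_num
  have h4 := (h1.const_mul c0).const_sub 1
  rw [h3, sub_self] at h4
  exact h4

lemma Q1_neg (x : ℝ) : Q1 x < 0 := by
  unfold Q1
  have := mul_pos c0_pos (Real.exp_pos (-(x ^ 2 / 2)))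
  linarith

lemma Q_anti : StrictAnti Q :=
  strictAnti_of_deriv_neg fun x => by rw [(hasDerivAt_Q x).deriv]; exact Q1_neg x

lemma Q_nonneg (x : ℝ) : 0 ≤ Q x :=
  by
    by_contra h
    push Not at h
    have h1 : ∀ᶠ y in atTop, Q x < Q y :=
      tendsto_Q.eventually (eventually_gt_nhds h)
    obtain ⟨y, hy1, hy2⟩ := (h1.and (eventually_gt_atTop x)).exists
    exact absurd (Q_anti hy2) (not_lt.mpr hy1.le)

lemma Q_pos (x : ℝ) : 0 < Q x :=
  lt_of_le_of_lt (Q_nonneg (x + 1)) (Q_anti (by linarith))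

/-- a function which is antitone on `[a, ∞)` and tends to `0` is nonnegative there -/
lemma nonneg_of_anti {g g' : ℝ → ℝ} {a : ℝ} (hg : ∀ x, a < x → HasDerivAt g (g' x) x)
    (hneg : ∀ x, a < x → g' x ≤ 0) (hlim : Tendsto g atTop (𝓝 0)) :
    ∀ x, a < x → 0 ≤ g x := by
  intro x hx
  have hanti : AntitoneOn g (Ici x) := by
    refine antitoneOn_of_deriv_nonpos (convex_Ici x) ?_ ?_ ?_
    · intro y hy
      exact (hg y (lt_of_lt_of_le hx hy)).continuousAt.continuousWithinAt
    · intro y hy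
      rw [interior_Ici] at hy
      exact (hg y (hx.trans hy)).differentiableAt.differentiableWithinAt
    · intro y hy
      rw [interior_Ici] at hy
      rw [(hg y (hx.trans hy)).deriv]
      exact hneg y (hx.trans hy)
  by_contra h
  push Not at h
  have h1 : ∀ᶠ y in atTop, g x < g y := hlim.eventually (eventually_gt_nhds h)
  obtain ⟨y, hy1, hy2⟩ := (h1.and (eventually_ge_atTop x)).exists
  exact absurd (hanti (mem_Ici.mpr le_rfl) (mem_Ici.mpr hy2) hy2) (not_le.mpr hy1)

lemma tendsto_gauss : Tendsto (fun x : ℝ => Real.exp (-(x ^ 2 / 2))) atTop (𝓝 0) := by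
  have h1 : Tendsto (fun x : ℝ => -(x ^ 2 / 2)) atTop atBot := by
    apply tendsto_neg_atBot_iff.mpr
    exact (tendsto_pow_atTop (by norm_num)).atTop_div_const (by norm_num)
  exact Real.tendsto_exp_atBot.comp h1

/-- Mills ratio bound -/
lemma Q_le (x : ℝ) (hx : 0 < x) :
    Q x ≤ c0 * Real.exp (-(x ^ 2 / 2)) * ((x ^ 2 + 2) / (x ^ 3 + 3 * x)) := by
  set R : ℝ → ℝ := fun x => (x ^ 2 + 2) / (x ^ 3 + 3 * x) with hR
  set g : ℝ → ℝ := fun x => c0 * Real.exp (-(x ^ 2 / 2)) * R x - Q x with hg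
  have hder : ∀ x, 0 < x → HasDerivAt g (c0 * Real.exp (-(x ^ 2 / 2)) *
      (- 6 / (x ^ 3 + 3 * x) ^ 2)) x := by
    intro x hx
    have hne : x ^ 3 + 3 * x ≠ 0 := by positivity
    have h1 : HasDerivAt (fun x : ℝ => x ^ 2 + 2) (2 * x) x := by
      simpa using (hasDerivAt_pow 2 x).add_const (2 : ℝ)
    have h2 : HasDerivAt (fun x : ℝ => x ^ 3 + 3 * x) (3 * x ^ 2 + 3) x := by
      have := (hasDerivAt_pow 3 x).fun_add ((hasDerivAt_id' x).const_mul 3)
      refine this.congr_deriv ?_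
      norm_num
    have h3 := h1.div h2 hne
    have h4 := (((hasDerivAt_gauss x).const_mul c0).mul h3).sub (hasDerivAt_Q x)
    refine h4.congr_deriv ?_
    unfold Q1
    simp only [Pi.div_apply]
    field_simp
    ring
  have hneg : ∀ x, 0 < x → c0 * Real.exp (-(x ^ 2 / 2)) * (- 6 / (x ^ 3 + 3 * x) ^ 2) ≤ 0 := by
    intro x hx
    have h1 := mul_pos c0_pos (Real.exp_pos (-(x ^ 2 / 2)))
    have h2 : - 6 / (x ^ 3 + 3 * x) ^ 2 ≤ 0 :=
      div_nonpos_of_nonpos_of_nonneg (by norm_num) (by positivity)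
    exact mul_nonpos_of_nonneg_of_nonpos h1.le h2
  have hlim : Tendsto g atTop (𝓝 0) := by
    have h1 : Tendsto (fun x : ℝ => c0 * Real.exp (-(x ^ 2 / 2)) * R x) atTop (𝓝 0) := by
      have h2 : Tendsto (fun x : ℝ => c0 * Real.exp (-(x ^ 2 / 2))) atTop (𝓝 0) := by
        simpa using tendsto_gauss.const_mul c0
      refine squeeze_zero' ?_ ?_ h2
      · filter_upwards [eventually_gt_atTop 0] with x hx
        have := c0_pos
        simp only [hR]
        positivity
      · filter_upwards [eventually_ge_atTop 1] with x hx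
        have h3 : R x ≤ 1 := by
          simp only [hR]
          rw [div_le_one (by positivity)]
          nlinarith [sq_nonneg x, mul_nonneg (sub_nonneg.mpr hx) (sq_nonneg x)]
        have h4 := mul_pos c0_pos (Real.exp_pos (-(x ^ 2 / 2)))
        calc c0 * Real.exp (-(x ^ 2 / 2)) * R x ≤ c0 * Real.exp (-(x ^ 2 / 2)) * 1 :=
              mul_le_mul_of_nonneg_left h3 h4.le
          _ = _ := mul_one _
    have := h1.sub tendsto_Q
    simpa using this
  have := nonneg_of_anti hder hneg hlim x hx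
  simp only [hg, hR] at this
  linarith

/-- the profile of the dipole -/
def Y0 (x : ℝ) : ℝ := x * Real.exp (-(x ^ 2 / 2))
def Y1 (x : ℝ) : ℝ := (1 - x ^ 2) * Real.exp (-(x ^ 2 / 2))
def Y2 (x : ℝ) : ℝ := (x ^ 3 - 3 * x) * Real.exp (-(x ^ 2 / 2))

lemma hasDerivAt_Y0 (x : ℝ) : HasDerivAt Y0 (Y1 x) x := by
  have h := (hasDerivAt_id x).mul (hasDerivAt_gauss x)
  refine h.congr_deriv ?_
  unfold Y1
  simp only [id]
  ring

lemma hasDerivAt_Y1 (x : ℝ) : HasDerivAt Y1 (Y2 x) x := by
  have h0 : HasDerivAt (fun x : ℝ => 1 - x ^ 2) (-(2 * x)) x := by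
    simpa using (hasDerivAt_pow 2 x).const_sub 1
  have h := h0.mul (hasDerivAt_gauss x)
  refine h.congr_deriv ?_
  unfold Y2
  ring

lemma Y_heat (x : ℝ) : Y2 x = -(x * Y1 x + (2 : ℕ) * Y0 x) := by
  unfold Y0 Y1 Y2
  push_cast
  ring

lemma cont_Y0 : Continuous Y0 :=
  continuous_iff_continuousAt.mpr fun x => (hasDerivAt_Y0 x).continuousAt

lemma Y0_nonneg {x : ℝ} (hx : 0 ≤ x) : 0 ≤ Y0 x := mul_nonneg hx (Real.exp_pos _).le

lemma Y2_nonneg {x : ℝ} (hx : 0 ≤ x) (h : 3 ≤ x ^ 2) : 0 ≤ Y2 x := by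
  unfold Y2
  refine mul_nonneg ?_ (Real.exp_pos _).le
  have : x ^ 3 - 3 * x = x * (x ^ 2 - 3) := by ring
  rw [this]
  exact mul_nonneg hx (by linarith)

lemma Q2_nonneg {x : ℝ} (hx : 0 ≤ x) : 0 ≤ Q2 x :=
  mul_nonneg c0_pos.le (mul_nonneg hx (Real.exp_pos _).le)

/-- domination of the shifted dipole by the Gaussian tail -/
lemma dom {s y : ℝ} (hs : 0 < s) (hs3 : 3 ≤ s ^ 2) (hy : 0 ≤ y) : Y0 (s + y) ≤ Y0 s * Q y := by
  -- `g y = Y0 s * Q y - Y0 (s + y)`, `g 0 = 0`, `g → 0`, `g'` changes sign once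
  set g : ℝ → ℝ := fun y => Y0 s * Q y - Y0 (s + y) with hg
  set H : ℝ → ℝ := fun y => ((s + y) ^ 2 - 1) * Real.exp (-(s * y)) - s * c0 with hH
  have hder : ∀ y, HasDerivAt g (Real.exp (-(s ^ 2 / 2)) * Real.exp (-(y ^ 2 / 2)) * H y) y := by
    intro y
    have h1 : HasDerivAt (fun y => Y0 (s + y)) (Y1 (s + y)) y := by
      have := (hasDerivAt_Y0 (s + y)).comp_const_add s y
      exact this
    have h2 := ((hasDerivAt_Q y).const_mul (Y0 s)).sub h1
    refine h2.congr_deriv ?_
    have e : Real.exp (-((s + y) ^ 2 / 2)) =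
        Real.exp (-(s ^ 2 / 2)) * Real.exp (-(y ^ 2 / 2)) * Real.exp (-(s * y)) := by
      rw [← Real.exp_add, ← Real.exp_add]
      congr 1; ring
    unfold Q1 Y0 Y1
    rw [e]
    simp only [hH]
    ring
  have hHder : ∀ y, HasDerivAt H ((2 * (s + y) - s * ((s + y) ^ 2 - 1)) * Real.exp (-(s * y))) y := by
    intro y
    have h1 : HasDerivAt (fun y : ℝ => (s + y) ^ 2 - 1) (2 * (s + y)) y := by
      have := (((hasDerivAt_id y).const_add s).pow 2).sub_const 1
      simpa using this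
    have h2 : HasDerivAt (fun y : ℝ => Real.exp (-(s * y))) (Real.exp (-(s * y)) * (-s)) y := by
      have := ((hasDerivAt_id y).const_mul s).neg.exp
      simpa using this
    have h3 := (h1.mul h2).sub_const (s * c0)
    refine h3.congr_deriv ?_
    ring
  have hHneg : ∀ y, 0 ≤ y → (2 * (s + y) - s * ((s + y) ^ 2 - 1)) * Real.exp (-(s * y)) ≤ 0 := by
    intro y hy
    refine mul_nonpos_of_nonpos_of_nonneg ?_ (Real.exp_pos _).le
    have h1 : 0 ≤ s * y := mul_nonneg hs.le hy
    have h2 : 0 ≤ s * y ^ 2 := mul_nonneg hs.le (sq_nonneg y)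
    nlinarith [mul_nonneg hs.le (sub_nonneg.mpr hs3), mul_nonneg hy (sub_nonneg.mpr hs3)]
  have hHanti : AntitoneOn H (Ici 0) := by
    refine antitoneOn_of_deriv_nonpos (convex_Ici 0) ?_ ?_ ?_
    · intro y _; exact (hHder y).continuousAt.continuousWithinAt
    · intro y _; exact (hHder y).differentiableAt.differentiableWithinAt
    · intro y hy
      rw [interior_Ici] at hy
      rw [(hHder y).deriv]; exact hHneg y (le_of_lt hy)
  have hlim : Tendsto g atTop (𝓝 0) := by
    have h1 : Tendsto (fun y => Y0 s * Q y) atTop (𝓝 0) := by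
      simpa using tendsto_Q.const_mul (Y0 s)
    have h2 : Tendsto (fun y => Y0 (s + y)) atTop (𝓝 0) := by
      have h3 : Tendsto Y0 atTop (𝓝 0) := by
        have h4 := Real.tendsto_pow_mul_exp_neg_atTop_nhds_zero 1
        have h5 : Tendsto (fun x : ℝ => x ^ 1 * Real.exp (-x)) atTop (𝓝 0) := h4
        refine squeeze_zero' ?_ ?_ h5
        · filter_upwards [eventually_ge_atTop 0] with x hx
          exact Y0_nonneg hx
        · filter_upwards [eventually_ge_atTop 2] with x hx
          unfold Y0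
          rw [pow_one]
          refine mul_le_mul_of_nonneg_left ?_ (by linarith)
          exact Real.exp_le_exp.mpr (by nlinarith)
      exact h3.comp (tendsto_atTop_add_const_left atTop s tendsto_id)
    simpa using h1.sub h2
  have hg0 : g 0 = 0 := by simp [hg, Q_zero]
  have hpos : ∀ y, 0 < Real.exp (-(s ^ 2 / 2)) * Real.exp (-(y ^ 2 / 2)) := fun y =>
    mul_pos (Real.exp_pos _) (Real.exp_pos _)
  have key : 0 ≤ g y := by
    rcases le_or_gt 0 (H y) with h | h
    · -- `g` is monotone on `[0, y]`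
      have hmono : MonotoneOn g (Icc 0 y) := by
        refine monotoneOn_of_deriv_nonneg (convex_Icc 0 y) ?_ ?_ ?_
        · intro z _; exact (hder z).continuousAt.continuousWithinAt
        · intro z _; exact (hder z).differentiableAt.differentiableWithinAt
        · intro z hz
          rw [interior_Icc] at hz
          rw [(hder z).deriv]
          refine mul_nonneg (hpos z).le (h.trans ?_)
          exact hHanti (mem_Ici.mpr hz.1.le) (mem_Ici.mpr hy) hz.2.le
      have := hmono (left_mem_Icc.mpr hy) (right_mem_Icc.mpr hy) hy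
      rw [hg0] at this
      exact this
    · have hanti : AntitoneOn g (Ici y) := by
        refine antitoneOn_of_deriv_nonpos (convex_Ici y) ?_ ?_ ?_
        · intro z _; exact (hder z).continuousAt.continuousWithinAt
        · intro z _; exact (hder z).differentiableAt.differentiableWithinAt
        · intro z hz
          rw [interior_Ici] at hz
          rw [(hder z).deriv]
          refine mul_nonpos_of_nonneg_of_nonpos (hpos z).le ?_
          have hz' : y < z := hz
          exact (hHanti (mem_Ici.mpr hy) (mem_Ici.mpr (hy.trans hz'.le)) hz'.le).trans h.le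
      by_contra hcon
      push Not at hcon
      have h1 : ∀ᶠ z in atTop, g y < g z := hlim.eventually (eventually_gt_nhds hcon)
      obtain ⟨z, hz1, hz2⟩ := (h1.and (eventually_ge_atTop y)).exists
      exact absurd (hanti (mem_Ici.mpr le_rfl) (mem_Ici.mpr hz2) hz2) (not_le.mpr hz1)
  simp only [hg] at key
  linarith

end Pool.Agent.Lib.MP_ad55ca_co.Upper
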