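import Pool.Agent.Lib.MP_ad55ca_co.Upper.Table

/-!
# MP_ad55ca_co (upper bound): large matrices
-/

open Filter Topology MeasureTheory Set

noncomputable section

namespace Pool.Agent.Lib.MP_ad55ca_co.Upper

variable {n : ℕ}

lemma tau_ge {i : ℕ} (hi : 1 ≤ i) : 9 / 2 * (i : ℝ) ≤ tau (3 * i) := by
  induction i, hi using Nat.le_induction with
  | base => rw [mul_one, tau_three]; norm_num
  | succ i hi ih =>
    rw [tau_block hi]
    have h1 : (0 : ℝ) ≤ 1 / (2 * i) := by positivity
    have h2 : (0 : ℝ) ≤ 1 / (4 * i + 2) := by positivity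
    push_cast
    linarith

lemma tau_le {a : ℕ} (ha : 30 ≤ a) : tau (3 * (a + 1)) ≤ 181 / 40 * (a : ℝ) + 6597 / 1000 := by
  induction a, ha using Nat.le_induction with
  | base =>
    have h := tau_hi (i := 31) (by norm_num)
    have e : thi 31 = 142346913 := by rfl
    rw [e] at h
    have e2 : 3 * (30 + 1) = 3 * 31 := by norm_num
    rw [e2]
    refine h.trans ?_
    norm_num
  | succ a ha ih =>
    rw [tau_block (by omega)]
    have ha' : (30 : ℝ) ≤ a := by exact_mod_cast ha
    have h1 : 1 / (2 * ((a + 1 : ℕ) : ℝ)) ≤ 1 / 62 :=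
      one_div_le_one_div_of_le (by norm_num) (by push_cast; linarith)
    have h2 : 1 / (4 * ((a + 1 : ℕ) : ℝ) + 2) ≤ 1 / 126 :=
      one_div_le_one_div_of_le (by norm_num) (by push_cast; linarith)
    push_cast at *
    linarith

theorem large {A : Fin n → Fin n → ℝ} (hA : ∀ i j, A i j ^ 2 = 1) (hn : 2731 ≤ n) :
    ∃ y : Fin n → ℝ, (∀ j, y j = 1 ∨ y j = -1) ∧ ∀ i, |row A y i| ≤ (16 / 5) * √n := by
  obtain ⟨a, hadef⟩ : ∃ a, a = (n - 1) / 91 := ⟨_, rfl⟩
  have ha : 30 ≤ a := by omega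
  have hn1 : 91 * a + 1 ≤ n := by omega
  have hn2 : n ≤ 91 * (a + 1) := by omega
  have har : (30 : ℝ) ≤ a := by exact_mod_cast ha
  have hlow := tau_ge (i := a + 1) (by omega)
  have hup := tau_le ha
  obtain ⟨q, hqdef⟩ : ∃ q : ℕ, q = ⌊(181 / 40 * (a : ℝ) + 6597 / 1000) / (49159 / 25000)⌋₊ + 1 :=
    ⟨_, rfl⟩
  have hq1 : (181 / 40 * (a : ℝ) + 6597 / 1000) / (49159 / 25000) < q := by
    rw [hqdef]; push_cast
    exact Nat.lt_floor_add_one _
  have hq2 : (q : ℝ) ≤ (181 / 40 * (a : ℝ) + 6597 / 1000) / (49159 / 25000) + 1 := by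
    rw [hqdef]; push_cast
    have := Nat.floor_le (a := (181 / 40 * (a : ℝ) + 6597 / 1000) / (49159 / 25000)) (by positivity)
    linarith
  have hq3 : (q : ℝ) ≤ 230121 / 100000 * a + 4355 / 1000 := by linarith
  have hqM : q ≤ 3 * (a + 1) := by
    have : (q : ℝ) ≤ ((3 * (a + 1) : ℕ) : ℝ) := by push_cast; linarith
    exact_mod_cast this
  have hq0 : (1 : ℝ) ≤ q := by exact_mod_cast (by omega : 1 ≤ q)
  have hKl : (49159 / 25000 : ℝ) ≤ kaps (134 / 100 * √3) :=
    K_lo (v := 181611573 / 100000000) (by norm_num) (by norm_num) (by norm_num)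
      (by norm_num [Finset.sum_range_succ, Nat.factorial]) (by norm_num)
  have hKh : kaps (134 / 100 * √3) ≤ 1966361 / 1000000 :=
    K_hi (u := 30318867 / 100000000) (by norm_num)
      (by norm_num [Finset.sum_range_succ, Nat.factorial]) (by norm_num)
  have hQ : Q (5 / 2) ≤ 1250677 / 100000000 :=
    Q_num (u := 21968467 / 500000000) (by norm_num)
      (by norm_num [Finset.sum_range_succ, Nat.factorial]) (by norm_num)
  have hden : (0 : ℝ) < 3 * ((a : ℝ) + 1) - q + 1 / 2 := by linarith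
  have hM0 : (((3 * (a + 1) : ℕ) : ℝ)) = 3 * ((a : ℝ) + 1) := by push_cast; ring
  have hN1 : (((91 * a + 1 : ℕ) : ℝ)) = 91 * (a : ℝ) + 1 := by push_cast; ring
  -- the logarithm
  have hlog : Real.log ((91 * (a : ℝ) + 1 - q + 1 / 2) / (3 * ((a : ℝ) + 1) - q + 1 / 2)) ≤
      4892 / 1000 := by
    refine log_num (div_pos (by linarith) hden) (by norm_num) ?_
    have h1 : (91 * (a : ℝ) + 1 - q + 1 / 2) / (3 * ((a : ℝ) + 1) - q + 1 / 2) ≤ 1324 / 10 := by
      rw [div_le_iff₀ hden]
      linarith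
    refine h1.trans ?_
    norm_num
  have hclock : clock (3 * (a + 1)) q (91 * a + 1) ≤
      103783 / 1000 * (a : ℝ) + 25902 / 1000 := by
    unfold clock
    rw [hM0, hN1]
    have h1 := mul_le_mul_of_nonneg_left hlog (by linarith : (0 : ℝ) ≤ q)
    have h2 : (q : ℝ) * (4892 / 1000) ≤ (230121 / 100000 * a + 4355 / 1000) * (4892 / 1000) :=
      mul_le_mul_of_nonneg_right hq3 (by norm_num)
    linarith
  refine use_row hA (n1 := 91 * a + 1) (M0 := 3 * (a + 1)) (q := q) (c := 16 / 5)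
    (p := 134 / 100) (x0 := 5 / 2) (T1 := 103783 / 1000 * (a : ℝ) + 25902 / 1000)
    (by omega) (by omega) hn1 (by exact_mod_cast hq0) hqM (by norm_num) (by norm_num) ?_ ?_ ?_
    hclock ?_ ?_
  · have h1 : tau (3 * (a + 1)) < q * (49159 / 25000) := by
      rw [div_lt_iff₀ (by norm_num)] at hq1
      linarith
    exact lt_of_lt_of_le h1 (mul_le_mul_of_nonneg_left hKl (by linarith))
  · have hn2' : (n : ℝ) ≤ 91 * ((a : ℝ) + 1) := by exact_mod_cast hn2
    have hK0 : 0 ≤ kaps (134 / 100 * √3) := le_trans (by norm_num) hKl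
    have hn0 : (0 : ℝ) ≤ n := Nat.cast_nonneg n
    have h1 : 2 * (n : ℝ) * kaps (134 / 100 * √3) * Q (5 / 2) ≤
        2 * (91 * ((a : ℝ) + 1)) * (1966361 / 1000000) * (1250677 / 100000000) :=
      mul_le_mul (mul_le_mul (by linarith) hKh hK0 (by positivity)) hQ (Q_nonneg _) (by positivity)
    push_cast at hlow
    linarith
  · rw [hN1]
    have h1 : (0 : ℝ) < 91 * (a : ℝ) + 1 - q + 1 / 2 := by linarith
    have h2 : (q : ℝ) / (91 * (a : ℝ) + 1 - q + 1 / 2) ≤ 28 / 100 := by
      rw [div_le_iff₀ h1]; linarith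
    linarith
  · rw [hN1]; linarith
  · rw [hN1]
    set u : ℝ := √(a : ℝ) with hu
    have hu2 : u ^ 2 = a := Real.sq_sqrt (by linarith)
    have hu0 : (5477 / 1000 : ℝ) ≤ u := Real.le_sqrt_of_sq_le (by linarith)
    have hup0 : 0 < u := by linarith
    have e1 : √(103783 / 1000 * (a : ℝ) + 25902 / 1000) ≤
        101874 / 10000 * u + 12713 / 10000 / u := by
      apply Real.sqrt_le_iff.mpr
      refine ⟨by positivity, ?_⟩
      have e : (101874 / 10000 * u + 12713 / 10000 / u) ^ 2 = (101874 / 10000) ^ 2 * u ^ 2 +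
          2 * (101874 / 10000) * (12713 / 10000) + (12713 / 10000 / u) ^ 2 := by
        field_simp
        ring
      rw [e, hu2]
      have := sq_nonneg (12713 / 10000 / u)
      nlinarith
    have e2 : √(3 * tau (3 * (a + 1))) ≤ 368443 / 100000 * u + 26858 / 10000 / u := by
      apply Real.sqrt_le_iff.mpr
      refine ⟨by positivity, ?_⟩
      have e : (368443 / 100000 * u + 26858 / 10000 / u) ^ 2 = (368443 / 100000) ^ 2 * u ^ 2 +
          2 * (368443 / 100000) * (26858 / 10000) + (26858 / 10000 / u) ^ 2 := by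
        field_simp
        ring
      rw [e, hu2]
      have := sq_nonneg (26858 / 10000 / u)
      nlinarith
    have e3 : 953939 / 100000 * u ≤ √(91 * (a : ℝ) + 1) := by
      apply Real.le_sqrt_of_sq_le
      rw [mul_pow, hu2]
      nlinarith
    have e4 : (1732 / 1000 : ℝ) ≤ √3 := Real.le_sqrt_of_sq_le (by norm_num)
    have key : 5 / 2 * (101874 / 10000 * u + 12713 / 10000 / u) +
        (134 / 100 * (368443 / 100000 * u + 26858 / 10000 / u) - 1732 / 1000 + 1) ≤
        16 / 5 * (953939 / 100000 * u) := by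
      have h5 : (5 / 2 * (12713 / 10000) + 134 / 100 * (26858 / 10000)) / u ≤
          (16 / 5 * (953939 / 100000) - 5 / 2 * (101874 / 10000) -
            134 / 100 * (368443 / 100000)) * u + 732 / 1000 := by
        rw [div_le_iff₀ hup0]
        nlinarith
      have h6 : (5 / 2 * (12713 / 10000) + 134 / 100 * (26858 / 10000)) / u =
        5 / 2 * (12713 / 10000 / u) + 134 / 100 * (26858 / 10000 / u) := by ring
      rw [h6] at h5
      linarith
    linarith

end Pool.Agent.Lib.MP_ad55ca_co.Upper
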