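import Pool.Agent.Lib.MP_ad55ca_co.Upper.Row

/-!
# MP_ad55ca_co (upper bound): certificates for numerical inequalities
-/

open Filter Topology MeasureTheory Set

noncomputable section

namespace Pool.Agent.Lib.MP_ad55ca_co.Upper

variable {n : ℕ}

lemma c0_le : c0 ≤ 79789 / 100000 := by
  unfold c0
  have h := Real.pi_gt_d6
  apply Real.sqrt_le_iff.mpr
  refine ⟨by norm_num, ?_⟩
  rw [div_le_iff₀ Real.pi_pos]
  nlinarith

lemma exp_neg_le {x u : ℝ} (hx : 0 ≤ x) (N : ℕ)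
    (h : 1 ≤ u * ∑ i ∈ Finset.range N, x ^ i / (i.factorial : ℝ)) :
    Real.exp (-x) ≤ u := by
  have h1 := Real.sum_le_exp_of_nonneg hx N
  have h0 : 0 ≤ ∑ i ∈ Finset.range N, x ^ i / (i.factorial : ℝ) :=
    Finset.sum_nonneg fun i _ => by positivity
  have hu : 0 < u := by
    by_contra hu
    push Not at hu
    nlinarith
  rw [Real.exp_neg, inv_le_comm₀ (Real.exp_pos _) hu]
  refine le_trans ?_ h1
  rw [inv_le_iff_one_le_mul₀ hu, mul_comm]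
  exact h

lemma Q_num {x u Qb : ℝ} (hx : 0 < x)
    (h : 1 ≤ u * ∑ i ∈ Finset.range 18, (x ^ 2 / 2) ^ i / (i.factorial : ℝ))
    (h' : 79789 / 100000 * u * ((x ^ 2 + 2) / (x ^ 3 + 3 * x)) ≤ Qb) : Q x ≤ Qb := by
  have h1 := exp_neg_le (by positivity) 18 h
  refine (Q_le x hx).trans (le_trans ?_ h')
  refine mul_le_mul_of_nonneg_right ?_ (by positivity)
  exact mul_le_mul c0_le h1 (Real.exp_pos _).le (by norm_num)

lemma K_hi {p u K : ℝ} (hp : 1 ≤ p)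
    (h : 1 ≤ u * ∑ i ∈ Finset.range 14, (3 / 2 * (p ^ 2 - 1)) ^ i / (i.factorial : ℝ))
    (h' : 121 / 25 * p * u ≤ K) : kaps (p * √3) ≤ K := by
  rw [kaps_eq]
  have h1 := exp_neg_le (x := 3 / 2 * (p ^ 2 - 1)) (by nlinarith) 14 h
  refine le_trans ?_ h'
  unfold kap
  exact mul_le_mul_of_nonneg_left h1 (by positivity)

lemma exp_ub {x u : ℝ} (h0 : 0 ≤ x) (h1 : x ≤ 1)
    (h : ∑ i ∈ Finset.range 9, x ^ i / (i.factorial : ℝ) + x ^ 9 * (10 / (362880 * 9)) ≤ u) :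
    Real.exp x ≤ u := by
  have h2 := Real.exp_bound' h0 h1 (n := 9) (by norm_num)
  refine le_trans h2 (le_trans (le_of_eq ?_) h)
  congr 1
  norm_num [Nat.factorial]
  ring

lemma K_lo {p v K : ℝ} (hp : 1 ≤ p) (hp2 : 3 / 4 * (p ^ 2 - 1) ≤ 1) (hK : 0 ≤ K)
    (h : ∑ i ∈ Finset.range 9, (3 / 4 * (p ^ 2 - 1)) ^ i / (i.factorial : ℝ) +
      (3 / 4 * (p ^ 2 - 1)) ^ 9 * (10 / (362880 * 9)) ≤ v)
    (h' : K * v ^ 2 ≤ 121 / 25 * p) : K ≤ kaps (p * √3) := by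
  rw [kaps_eq]
  have h1 := exp_ub (x := 3 / 4 * (p ^ 2 - 1)) (by nlinarith) hp2 h
  have h2 : Real.exp (3 / 2 * (p ^ 2 - 1)) ≤ v ^ 2 := by
    have e : Real.exp (3 / 2 * (p ^ 2 - 1)) = Real.exp (3 / 4 * (p ^ 2 - 1)) ^ 2 := by
      rw [← Real.exp_nat_mul]; congr 1; push_cast; ring
    rw [e]
    exact pow_le_pow_left₀ (Real.exp_pos _).le h1 2
  rw [Real.exp_neg, ← div_eq_mul_inv, le_div_iff₀ (Real.exp_pos _)]
  unfold kap
  exact (mul_le_mul_of_nonneg_left h2 hK).trans h'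

lemma log_num {R l : ℝ} (hR : 0 < R) (hl : 0 ≤ l)
    (h : R ≤ (1 + l / 64 + (l / 64) ^ 2 / 2) ^ 64) : Real.log R ≤ l := by
  rw [Real.log_le_iff_le_exp hR]
  refine h.trans ?_
  have h1 : Real.exp l = Real.exp (l / 64) ^ 64 := by
    rw [← Real.exp_nat_mul]; congr 1; push_cast; ring
  rw [h1]
  exact pow_le_pow_left₀ (by positivity) (Real.quadratic_le_exp_of_nonneg (by positivity)) 64

/-- rational bounds for the clock -/
def tlo : ℕ → ℕ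
  | 0 => 0
  | 1 => 4500000
  | (i + 2) => tlo (i + 1) + 4500000 + 1000000 / (2 * (i + 1)) + 1000000 / (4 * (i + 1) + 2)
def thi : ℕ → ℕ
  | 0 => 0
  | 1 => 4500000
  | (i + 2) => thi (i + 1) + 4500000 + (1000000 / (2 * (i + 1)) + 1) +
      (1000000 / (4 * (i + 1) + 2) + 1)

lemma div_hi (a b : ℕ) (hb : 0 < b) : (a : ℝ) / b ≤ (a / b : ℕ) + 1 := by
  have hb' : (0 : ℝ) < b := by exact_mod_cast hb
  rw [div_le_iff₀ hb']
  have h1 : a < (a / b + 1) * b := by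
    have := Nat.div_add_mod a b
    have := Nat.mod_lt a hb
    nlinarith
  have h2 : (a : ℝ) < (((a / b + 1) * b : ℕ) : ℝ) := by exact_mod_cast h1
  push_cast at h2
  exact h2.le

lemma tau_lo {i : ℕ} (hi : 1 ≤ i) : (tlo i : ℝ) / 1000000 ≤ tau (3 * i) := by
  induction i, hi using Nat.le_induction with
  | base => rw [mul_one, tau_three]; norm_num [tlo]
  | succ i hi ih =>
    obtain ⟨j, rfl⟩ : ∃ j, i = j + 1 := ⟨i - 1, by omega⟩
    rw [tau_block hi]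
    have h1 : ((1000000 / (2 * (j + 1)) : ℕ) : ℝ) ≤ ((1000000 : ℕ) : ℝ) / ((2 * (j + 1) : ℕ) : ℝ) :=
      Nat.cast_div_le
    have h2 : ((1000000 / (4 * (j + 1) + 2) : ℕ) : ℝ) ≤
        ((1000000 : ℕ) : ℝ) / ((4 * (j + 1) + 2 : ℕ) : ℝ) := Nat.cast_div_le
    have e : tlo (j + 1 + 1) = tlo (j + 1) + 4500000 + 1000000 / (2 * (j + 1)) +
      1000000 / (4 * (j + 1) + 2) := rfl
    rw [e]
    rw [div_le_iff₀ (by norm_num)] at *
    push_cast at *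
    have e1 : (1000000 : ℝ) / (2 * (j + 1)) = 1 / (2 * ((j : ℝ) + 1)) * 1000000 := by ring
    have e2 : (1000000 : ℝ) / (4 * (j + 1) + 2) = 1 / (4 * ((j : ℝ) + 1) + 2) * 1000000 := by ring
    rw [e1] at h1
    rw [e2] at h2
    linarith

lemma tau_hi {i : ℕ} (hi : 1 ≤ i) : tau (3 * i) ≤ (thi i : ℝ) / 1000000 := by
  induction i, hi using Nat.le_induction with
  | base => rw [mul_one, tau_three]; norm_num [thi]
  | succ i hi ih =>
    obtain ⟨j, rfl⟩ : ∃ j, i = j + 1 := ⟨i - 1, by omega⟩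
    rw [tau_block hi]
    have h1 := div_hi 1000000 (2 * (j + 1)) (by positivity)
    have h2 := div_hi 1000000 (4 * (j + 1) + 2) (by positivity)
    have e : thi (j + 1 + 1) = thi (j + 1) + 4500000 + (1000000 / (2 * (j + 1)) + 1) +
      (1000000 / (4 * (j + 1) + 2) + 1) := rfl
    rw [e]
    rw [le_div_iff₀ (by norm_num)] at *
    push_cast at *
    have e1 : (1000000 : ℝ) / (2 * (j + 1)) = 1 / (2 * ((j : ℝ) + 1)) * 1000000 := by ring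
    have e2 : (1000000 : ℝ) / (4 * (j + 1) + 2) = 1 / (4 * ((j : ℝ) + 1) + 2) * 1000000 := by ring
    rw [e1] at h1
    rw [e2] at h2
    linarith

/-- a row of the table -/
theorem row_num {A : Fin n → Fin n → ℝ} (hA : ∀ i j, A i j ^ 2 = 1) {a n1 n2 q tl th : ℕ}
    {c p x0 Kl Kh Qb l T1 r1 r2 r3 : ℝ} (ha : 1 ≤ a) (htl : tlo a = tl) (hth : thi a = th)
    (h3a : 3 * a ≤ n1) (hn1 : n1 ≤ n) (hn2 : n ≤ n2) (hq : 1 ≤ q) (hq3 : q ≤ 3 * a)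
    (hp : 1 ≤ p) (hx0 : 0 ≤ x0) (hKl : Kl ≤ kaps (p * √3)) (hKh : kaps (p * √3) ≤ Kh)
    (hKh0 : 0 ≤ Kh) (hQ : Q x0 ≤ Qb)
    (h1 : (th : ℝ) / 1000000 < q * Kl) (h2 : 2 * n2 * Kh * Qb ≤ (tl : ℝ) / 1000000)
    (hc : x0 * (1 + q / ((n1 : ℝ) - q + 1 / 2)) ≤ c) (hc0 : 0 ≤ c)
    (hl0 : 0 ≤ l) (hl : ((n1 : ℝ) - q + 1 / 2) / (3 * a - q + 1 / 2) ≤
      (1 + l / 64 + (l / 64) ^ 2 / 2) ^ 64)
    (hT1 : (th : ℝ) / 1000000 + ((n1 : ℝ) - 3 * a) + q * l ≤ T1) (hT1n : (n1 : ℝ) ≤ T1)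
    (hr1 : T1 ≤ r1 ^ 2) (hr1' : 0 ≤ r1) (hr2 : 3 * ((th : ℝ) / 1000000) ≤ r2 ^ 2) (hr2' : 0 ≤ r2)
    (hr3 : r3 ^ 2 ≤ n1) (hG : x0 * r1 + (p * r2 - 1732 / 1000 + 1) ≤ c * r3) :
    ∃ y : Fin n → ℝ, (∀ j, y j = 1 ∨ y j = -1) ∧ ∀ i, |row A y i| ≤ c * √n := by
  have k1 := tau_lo ha
  have k2 := tau_hi ha
  rw [htl] at k1
  rw [hth] at k2
  have hq0 : (0 : ℝ) ≤ q := Nat.cast_nonneg q
  have hq3' : (q : ℝ) ≤ 3 * a := by exact_mod_cast hq3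
  have h3a' : 3 * (a : ℝ) ≤ n1 := by exact_mod_cast h3a
  refine use_row hA (n1 := n1) (M0 := 3 * a) (q := q) (c := c) (p := p) (x0 := x0) (T1 := T1)
    (by omega) h3a hn1 hq hq3 hp hx0 ?_ ?_ hc ?_ hT1n ?_
  · exact lt_of_le_of_lt k2 (lt_of_lt_of_le h1 (mul_le_mul_of_nonneg_left hKl hq0))
  · refine le_trans ?_ (h2.trans k1)
    have hn2' : (n : ℝ) ≤ n2 := by exact_mod_cast hn2
    have hQ0 := Q_nonneg x0
    have hK0 : 0 ≤ kaps (p * √3) := by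
      rw [kaps_eq]
      have := Real.exp_pos (-(3 / 2 * (p ^ 2 - 1)))
      have := kap_pos
      positivity
    have hn0 : (0 : ℝ) ≤ n := Nat.cast_nonneg n
    exact mul_le_mul (mul_le_mul (by linarith) hKh hK0 (by positivity)) hQ hQ0 (by positivity)
  · refine le_trans ?_ hT1
    unfold clock
    push_cast
    have h5 : Real.log (((n1 : ℝ) - q + 1 / 2) / (3 * a - q + 1 / 2)) ≤ l :=
      log_num (div_pos (by linarith) (by linarith)) hl0 hl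
    have := mul_le_mul_of_nonneg_left h5 hq0
    linarith
  · have e1 : √T1 ≤ r1 := Real.sqrt_le_iff.mpr ⟨hr1', hr1⟩
    have e2 : √(3 * tau (3 * a)) ≤ r2 := by
      apply Real.sqrt_le_iff.mpr
      exact ⟨hr2', by linarith⟩
    have e3 : r3 ≤ √(n1 : ℝ) := Real.le_sqrt_of_sq_le hr3
    have e4 : (1732 / 1000 : ℝ) ≤ √3 := Real.le_sqrt_of_sq_le (by norm_num)
    have f1 := mul_le_mul_of_nonneg_left e1 hx0
    have f2 := mul_le_mul_of_nonneg_left e2 (by linarith : 0 ≤ p)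
    have f3 := mul_le_mul_of_nonneg_left e3 hc0
    linarith

end Pool.Agent.Lib.MP_ad55ca_co.Upper
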