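import Pool.Agent.Lib.MP_ad55ca_co.Upper.Gauss

/-!
# MP_ad55ca_co (upper bound): second order expansions of self-similar solutions of the heat equation
-/

open Filter Topology MeasureTheory Set

noncomputable section

namespace Pool.Agent.Lib.MP_ad55ca_co.Upper

/-- second order information on a potential `f(S, t)` along the curve `(S + δ a, t - r δ²)` -/
def Pot (f F1 F2 : ℝ → ℝ → ℝ) : Prop := ∀ S a r t : ℝ, 0 < t → ∃ g' : ℝ → ℝ,
  (∀ᶠ δ in 𝓝 (0 : ℝ), HasDerivAt (fun δ => f (S + δ * a) (t - r * δ ^ 2)) (g' δ) δ) ∧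
  g' 0 = a * F1 S t ∧ HasDerivAt g' ((a ^ 2 - r) * F2 S t) 0

/-- self-similar functions -/
def fam (Ψ : ℝ → ℝ) (q : ℕ) (z t : ℝ) : ℝ := Ψ (z / √t) / √t ^ q

lemma expand {Ψ Ψ1 Ψ2 : ℝ → ℝ} {q : ℕ} (h0 : ∀ x, HasDerivAt Ψ (Ψ1 x) x)
    (h1 : ∀ x, HasDerivAt Ψ1 (Ψ2 x) x) (h2 : ∀ x, Ψ2 x = -(x * Ψ1 x + (q : ℕ) * Ψ x))
    (z a r t : ℝ) (ht : 0 < t) : ∃ g' : ℝ → ℝ,
    (∀ᶠ δ in 𝓝 (0 : ℝ), HasDerivAt (fun δ => fam Ψ q (z + δ * a) (t - r * δ ^ 2)) (g' δ) δ) ∧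
    g' 0 = a * (Ψ1 (z / √t) / √t ^ (q + 1)) ∧
    HasDerivAt g' ((a ^ 2 - r) * (Ψ2 (z / √t) / √t ^ (q + 2))) 0 := by
  set s : ℝ → ℝ := fun δ => √(t - r * δ ^ 2) with hs
  have hu : Continuous fun δ : ℝ => t - r * δ ^ 2 := by fun_prop
  have hpos : ∀ᶠ δ in 𝓝 (0 : ℝ), 0 < t - r * δ ^ 2 := by
    have : Tendsto (fun δ : ℝ => t - r * δ ^ 2) (𝓝 0) (𝓝 t) := by
      have := hu.tendsto 0
      simpa using this
    exact this.eventually (eventually_gt_nhds ht)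
  -- derivative of `s`
  have hsd : ∀ δ, 0 < t - r * δ ^ 2 → HasDerivAt s (-(r * δ) / s δ) δ := by
    intro δ hδ
    have h3 : HasDerivAt (fun δ : ℝ => t - r * δ ^ 2) (-(r * (2 * δ))) δ := by
      have := ((hasDerivAt_pow 2 δ).const_mul r).const_sub t
      refine this.congr_deriv ?_
      simp
    have h4 := h3.sqrt hδ.ne'
    refine h4.congr_deriv ?_
    have h5 : √(t - r * δ ^ 2) ≠ 0 := (Real.sqrt_pos.mpr hδ).ne'
    simp only [hs]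
    field_simp
  set y : ℝ → ℝ := fun δ => z + δ * a with hy
  have hyd : ∀ δ, HasDerivAt y a δ := by
    intro δ
    have := ((hasDerivAt_id' δ).mul_const a).const_add z
    refine this.congr_deriv ?_
    ring
  have hs0 : s 0 = √t := by simp [hs]
  have hst : 0 < √t := Real.sqrt_pos.mpr ht
  -- derivative of the quotient
  have hXd : ∀ δ, 0 < t - r * δ ^ 2 →
      HasDerivAt (fun δ => y δ / s δ) (a / s δ + r * δ * (y δ / s δ ^ 3)) δ := by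
    intro δ hδ
    have hne : s δ ≠ 0 := (Real.sqrt_pos.mpr hδ).ne'
    have := (hyd δ).fun_div (hsd δ hδ) hne
    refine this.congr_deriv ?_
    field_simp
    ring
  have hpowd : ∀ (k : ℕ) δ, 0 < t - r * δ ^ 2 →
      HasDerivAt (fun δ => (s δ ^ k)⁻¹) (r * δ * (k / s δ ^ (k + 2))) δ := by
    intro k δ hδ
    have hne : s δ ≠ 0 := (Real.sqrt_pos.mpr hδ).ne'
    have h3 := ((hsd δ hδ).fun_pow k).fun_inv (pow_ne_zero k hne)
    refine h3.congr_deriv ?_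
    rcases Nat.eq_zero_or_pos k with hk | hk
    · subst hk; simp
    · obtain ⟨l, rfl⟩ : ∃ l, k = l + 1 := ⟨k - 1, by omega⟩
      simp only [Nat.add_sub_cancel]
      field_simp
      ring
  set g' : ℝ → ℝ := fun δ => a * (Ψ1 (y δ / s δ) * (s δ ^ (q + 1))⁻¹) +
    r * δ * (y δ * Ψ1 (y δ / s δ) * (s δ ^ (q + 3))⁻¹ + q * Ψ (y δ / s δ) * (s δ ^ (q + 2))⁻¹) with hg'
  refine ⟨g', ?_, ?_, ?_⟩
  · filter_upwards [hpos] with δ hδ
    have hne : s δ ≠ 0 := (Real.sqrt_pos.mpr hδ).ne'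
    have h3 : HasDerivAt (fun δ => Ψ (y δ / s δ)) (Ψ1 (y δ / s δ) *
        (a / s δ + r * δ * (y δ / s δ ^ 3))) δ := (h0 _).comp δ (hXd δ hδ)
    have h4 := h3.fun_mul (hpowd q δ hδ)
    have e : (fun δ => fam Ψ q (z + δ * a) (t - r * δ ^ 2)) =
        fun δ => Ψ (y δ / s δ) * (s δ ^ q)⁻¹ := by
      funext δ
      simp only [fam, hy, hs, div_eq_mul_inv]
    rw [e]
    refine h4.congr_deriv ?_
    simp only [hg']
    field_simp
    ring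
  · simp only [hg', hs0, hy]
    simp only [zero_mul, mul_zero, add_zero, div_eq_mul_inv]
  · have hpos0 : 0 < t - r * (0 : ℝ) ^ 2 := by simpa using ht
    have hX0 := hXd 0 hpos0
    have hP1 : HasDerivAt (fun δ => Ψ1 (y δ / s δ)) (Ψ2 (y 0 / s 0) *
        (a / s 0 + r * 0 * (y 0 / s 0 ^ 3))) 0 := (h1 _).comp 0 hX0
    have hP0 : HasDerivAt (fun δ => Ψ (y δ / s δ)) (Ψ1 (y 0 / s 0) *
        (a / s 0 + r * 0 * (y 0 / s 0 ^ 3))) 0 := (h0 _).comp 0 hX0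
    have hA := (hP1.fun_mul (hpowd (q + 1) 0 hpos0)).const_mul a
    have hB := (((hyd 0).fun_mul hP1).fun_mul (hpowd (q + 3) 0 hpos0)).fun_add
      ((hP0.const_mul (q : ℝ)).fun_mul (hpowd (q + 2) 0 hpos0))
    have hC := ((hasDerivAt_id' (0 : ℝ)).const_mul r).fun_mul hB
    have hD := hA.fun_add hC
    refine hD.congr_deriv ?_
    rw [hs0]
    have hy0 : y 0 = z := by simp [hy]
    rw [hy0, h2 (z / √t)]
    have hne : √t ≠ 0 := hst.ne'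
    field_simp
    ring

/-- the symmetrised potential with center `c` -/
def sym (Ψ : ℝ → ℝ) (q : ℕ) (c S t : ℝ) : ℝ := fam Ψ q (c - S) t + fam Ψ q (c + S) t
def sym1 (Ψ1 : ℝ → ℝ) (q : ℕ) (c S t : ℝ) : ℝ :=
  Ψ1 ((c + S) / √t) / √t ^ (q + 1) - Ψ1 ((c - S) / √t) / √t ^ (q + 1)
def sym2 (Ψ2 : ℝ → ℝ) (q : ℕ) (c S t : ℝ) : ℝ :=
  Ψ2 ((c + S) / √t) / √t ^ (q + 2) + Ψ2 ((c - S) / √t) / √t ^ (q + 2)

lemma pot_sym {Ψ Ψ1 Ψ2 : ℝ → ℝ} {q : ℕ} (h0 : ∀ x, HasDerivAt Ψ (Ψ1 x) x)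
    (h1 : ∀ x, HasDerivAt Ψ1 (Ψ2 x) x) (h2 : ∀ x, Ψ2 x = -(x * Ψ1 x + (q : ℕ) * Ψ x)) (c : ℝ) :
    Pot (sym Ψ q c) (sym1 Ψ1 q c) (sym2 Ψ2 q c) := by
  intro S a r t ht
  obtain ⟨g1, e1, e1', e1''⟩ := expand h0 h1 h2 (c + S) a r t ht
  obtain ⟨g2, e2, e2', e2''⟩ := expand h0 h1 h2 (c - S) (-a) r t ht
  refine ⟨fun δ => g2 δ + g1 δ, ?_, ?_, ?_⟩
  · filter_upwards [e1, e2] with δ h3 h4
    have := h4.fun_add h3
    refine this.congr_of_eventuallyEq (Eventually.of_forall fun δ => ?_)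
    simp only [sym]
    congr 2 <;> ring
  · simp only [e1', e2', sym1]
    ring
  · have := e2''.fun_add e1''
    refine this.congr_deriv ?_
    simp only [sym2]
    ring

lemma Pot.const_mul {f F1 F2 : ℝ → ℝ → ℝ} (h : Pot f F1 F2) (k : ℝ) :
    Pot (fun S t => k * f S t) (fun S t => k * F1 S t) (fun S t => k * F2 S t) := by
  intro S a r t ht
  obtain ⟨g, e, e', e''⟩ := h S a r t ht
  refine ⟨fun δ => k * g δ, ?_, ?_, ?_⟩
  · filter_upwards [e] with δ h3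
    exact h3.const_mul k
  · simp only [e']; ring
  · refine (e''.const_mul k).congr_deriv ?_
    ring

lemma sym_cont {Ψ : ℝ → ℝ} (h : Continuous Ψ) (q : ℕ) (c : ℝ) :
    ContinuousOn (fun p : ℝ × ℝ => sym Ψ q c p.1 p.2) (univ ×ˢ Ioi 0) := by
  have hne : ∀ p ∈ (univ ×ˢ Ioi 0 : Set (ℝ × ℝ)), √p.2 ≠ 0 := fun p hp =>
    (Real.sqrt_pos.mpr hp.2).ne'
  have hs : ContinuousOn (fun p : ℝ × ℝ => √p.2) (univ ×ˢ Ioi 0) := by fun_prop
  have h1 : ContinuousOn (fun p : ℝ × ℝ => (c - p.1) / √p.2) (univ ×ˢ Ioi 0) :=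
    ContinuousOn.div (by fun_prop) hs hne
  have h2 : ContinuousOn (fun p : ℝ × ℝ => (c + p.1) / √p.2) (univ ×ˢ Ioi 0) :=
    ContinuousOn.div (by fun_prop) hs hne
  unfold sym fam
  refine ContinuousOn.add ?_ ?_
  · exact ContinuousOn.div (h.comp_continuousOn h1) (hs.pow q) fun p hp => pow_ne_zero q (hne p hp)
  · exact ContinuousOn.div (h.comp_continuousOn h2) (hs.pow q) fun p hp => pow_ne_zero q (hne p hp)

end Pool.Agent.Lib.MP_ad55ca_co.Upper
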