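import Pool.Agent.Lib.MP_ad55ca_co.Upper.Chain

/-!
# MP_ad55ca_co (upper bound): a convenient clock and the numerical form of the main theorem
-/

open Filter Topology MeasureTheory Set

noncomputable section

namespace Pool.Agent.Lib.MP_ad55ca_co.Upper

variable {n : ℕ}

lemma log_step {y : ℝ} (hy : 1 ≤ y) : 1 / y ≤ Real.log ((y + 1 / 2) / (y - 1 / 2)) := by
  obtain ⟨z, hz⟩ : ∃ z, z = y - 1 / 2 := ⟨_, rfl⟩
  have hyz : y = z + 1 / 2 := by linarith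
  have hz0 : 0 < z := by linarith
  have h := Real.le_log_one_add_of_nonneg (x := 1 / z) (by positivity)
  have e1 : 1 + 1 / z = (y + 1 / 2) / (y - 1 / 2) := by
    rw [← hz, hyz]; field_simp; ring
  have e2 : 2 * (1 / z) / (1 / z + 2) = 1 / y := by
    rw [hyz]
    have h4 : z + 1 / 2 ≠ 0 := by linarith
    have h5 : 1 / z + 2 = 2 * (z + 1 / 2) / z := by field_simp; ring
    rw [h5]
    field_simp
  rw [e1, e2] at h
  exact h

/-- the clock of the early phase -/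
def clock (M0 q : ℕ) (l : ℕ) : ℝ :=
  tau M0 + ((l : ℝ) - M0) + q * Real.log (((l : ℝ) - q + 1 / 2) / (M0 - q + 1 / 2))

lemma clock_base {M0 q : ℕ} (h : q ≤ M0) : clock M0 q M0 = tau M0 := by
  have : (q : ℝ) ≤ M0 := by exact_mod_cast h
  unfold clock
  rw [div_self (by linarith), Real.log_one]
  ring

lemma clock_sub {M0 q l l' : ℕ} (h : q ≤ M0) (hl : M0 ≤ l) (hll : l ≤ l') :
    clock M0 q l' - clock M0 q l = ((l' : ℝ) - l) +
      q * Real.log (((l' : ℝ) - q + 1 / 2) / (l - q + 1 / 2)) := by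
  have h1 : (q : ℝ) ≤ M0 := by exact_mod_cast h
  have h2 : (M0 : ℝ) ≤ l := by exact_mod_cast hl
  have h3 : (l : ℝ) ≤ l' := by exact_mod_cast hll
  unfold clock
  rw [Real.log_div (by linarith) (by linarith), Real.log_div (by linarith) (by linarith),
    Real.log_div (by linarith) (by linarith)]
  ring

lemma clock_step {M0 q l : ℕ} (h : q ≤ M0) (hl : M0 ≤ l) :
    ((l : ℝ) + 1) / (l + 1 - q) ≤ clock M0 q (l + 1) - clock M0 q l := by
  have h1 : (q : ℝ) ≤ M0 := by exact_mod_cast h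
  have h2 : (M0 : ℝ) ≤ l := by exact_mod_cast hl
  rw [clock_sub h hl (by omega)]
  have h3 := log_step (y := (l : ℝ) + 1 - q) (by linarith)
  have e1 : (l : ℝ) + 1 - q - 1 / 2 = l - q + 1 / 2 := by ring
  rw [e1] at h3
  push_cast
  have h4 : ((l : ℝ) + 1) / (l + 1 - q) = 1 + q * (1 / (l + 1 - q)) := by
    have : (l : ℝ) + 1 - q ≠ 0 := by linarith
    field_simp
    ring
  rw [h4]
  have h5 : (0 : ℝ) ≤ q := Nat.cast_nonneg q
  have := mul_le_mul_of_nonneg_left h3 h5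
  linarith

lemma clock_le {M0 q l l' : ℕ} (h : q ≤ M0) (hl : M0 ≤ l) (hll : l ≤ l') :
    clock M0 q l' ≤ clock M0 q l + (1 + q / ((l : ℝ) - q + 1 / 2)) * ((l' : ℝ) - l) := by
  have h1 : (q : ℝ) ≤ M0 := by exact_mod_cast h
  have h2 : (M0 : ℝ) ≤ l := by exact_mod_cast hl
  have h3 : (l : ℝ) ≤ l' := by exact_mod_cast hll
  have h4 := clock_sub h hl hll
  have hpos : 0 < (l : ℝ) - q + 1 / 2 := by linarith
  have h5 := Real.log_le_sub_one_of_pos (x := ((l' : ℝ) - q + 1 / 2) / (l - q + 1 / 2))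
    (div_pos (by linarith) hpos)
  have e : ((l' : ℝ) - q + 1 / 2) / (l - q + 1 / 2) - 1 = ((l' : ℝ) - l) / (l - q + 1 / 2) := by
    rw [div_sub_one hpos.ne']
    congr 1
    ring
  rw [e] at h5
  have h6 : (0 : ℝ) ≤ q := Nat.cast_nonneg q
  have h7 := mul_le_mul_of_nonneg_left h5 h6
  have e2 : (1 + q / ((l : ℝ) - q + 1 / 2)) * ((l' : ℝ) - l) =
      ((l' : ℝ) - l) + q * (((l' : ℝ) - l) / (l - q + 1 / 2)) := by
    ring
  rw [e2]
  linarith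

lemma sqrt_growth {c x0 D N1 N2 T1 ρ : ℝ} (hN : 0 < N1) (hNN : N1 ≤ N2) (hT : N1 ≤ T1)
    (hx0 : 0 ≤ x0) (hρ : 1 ≤ ρ) (hc : x0 * ρ ≤ c) (h : x0 * √T1 + D ≤ c * √N1) :
    x0 * √(T1 + ρ * (N2 - N1)) + D ≤ c * √N2 := by
  set T2 : ℝ := T1 + ρ * (N2 - N1) with hT2
  have hd : 0 ≤ N2 - N1 := by linarith
  have hT21 : T1 ≤ T2 := by nlinarith
  have hTN : N2 ≤ T2 := by nlinarith
  have p1 : 0 < √N1 := Real.sqrt_pos.mpr hN
  have p2 : √N1 ≤ √N2 := Real.sqrt_le_sqrt hNN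
  have p3 : √N1 ≤ √T1 := Real.sqrt_le_sqrt hT
  have p4 : √N2 ≤ √T2 := Real.sqrt_le_sqrt hTN
  have p5 : √T1 ≤ √T2 := Real.sqrt_le_sqrt hT21
  have e1 : √N1 ^ 2 = N1 := Real.sq_sqrt hN.le
  have e2 : √N2 ^ 2 = N2 := Real.sq_sqrt (by linarith)
  have e3 : √T1 ^ 2 = T1 := Real.sq_sqrt (by linarith)
  have e4 : √T2 ^ 2 = T2 := Real.sq_sqrt (by linarith)
  have hc0 : 0 ≤ c := le_trans (mul_nonneg hx0 (by linarith)) hc
  -- `x0 (√T2 - √T1) (√N1 + √N2) ≤ x0 ρ (N2 - N1)`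
  have k1 : (√T2 - √T1) * (√N2 + √N1) ≤ ρ * (N2 - N1) := by
    have : (√T2 - √T1) * (√N2 + √N1) ≤ (√T2 - √T1) * (√T2 + √T1) :=
      mul_le_mul_of_nonneg_left (by linarith) (by linarith)
    have e5 : (√T2 - √T1) * (√T2 + √T1) = ρ * (N2 - N1) := by
      have : (√T2 - √T1) * (√T2 + √T1) = √T2 ^ 2 - √T1 ^ 2 := by ring
      rw [this, e3, e4, hT2]; ring
    linarith
  have k2 : x0 * (√T2 - √T1) * (√N2 + √N1) ≤ c * (√N2 - √N1) * (√N2 + √N1) := by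
    have e6 : c * (√N2 - √N1) * (√N2 + √N1) = c * (N2 - N1) := by
      have : c * (√N2 - √N1) * (√N2 + √N1) = c * (√N2 ^ 2 - √N1 ^ 2) := by ring
      rw [this, e1, e2]
    rw [e6, mul_assoc]
    calc x0 * ((√T2 - √T1) * (√N2 + √N1)) ≤ x0 * (ρ * (N2 - N1)) :=
          mul_le_mul_of_nonneg_left k1 hx0
      _ = (x0 * ρ) * (N2 - N1) := by ring
      _ ≤ c * (N2 - N1) := mul_le_mul_of_nonneg_right hc hd
  have k3 : x0 * (√T2 - √T1) ≤ c * (√N2 - √N1) :=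
    le_of_mul_le_mul_right k2 (by linarith)
  linarith

lemma kaps_eq (p : ℝ) : kaps (p * √3) = kap * p * Real.exp (-(3 / 2 * (p ^ 2 - 1))) := by
  unfold kaps A0 Y0
  have h3 : √3 ^ 2 = 3 := Real.sq_sqrt (by norm_num)
  have hne : √3 ≠ 0 := sqrt_three_pos.ne'
  rw [mul_pow, h3]
  have e : Real.exp (-(p ^ 2 * 3 / 2)) =
      Real.exp (-(3 / 2 * (p ^ 2 - 1))) * Real.exp (-(3 / 2)) := by
    rw [← Real.exp_add]; congr 1; ring
  rw [e]
  have := (Real.exp_pos (-(3 / 2 : ℝ))).ne'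
  field_simp

/-- the main theorem in numerical form: if the bound works at `n1` then it works at all `n ≥ n1`
satisfying the condition on the initial potential -/
theorem use_row {A : Fin n → Fin n → ℝ} (hA : ∀ i j, A i j ^ 2 = 1) {n1 M0 q : ℕ}
    {c p x0 T1 : ℝ} (hM : 1 ≤ M0) (hM1 : M0 ≤ n1) (hn : n1 ≤ n) (hq : 1 ≤ q) (hqM : q ≤ M0)
    (hp : 1 ≤ p) (hx0 : 0 ≤ x0) (h1 : tau M0 < q * kaps (p * √3))
    (h2 : 2 * n * kaps (p * √3) * Q x0 ≤ tau M0)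
    (hc : x0 * (1 + q / ((n1 : ℝ) - q + 1 / 2)) ≤ c)
    (hT1 : clock M0 q n1 ≤ T1) (hT1n : (n1 : ℝ) ≤ T1)
    (hG : x0 * √T1 + (p * √(3 * tau M0) - √3 + 1) ≤ c * √(n1 : ℝ)) :
    ∃ y : Fin n → ℝ, (∀ j, y j = 1 ∨ y j = -1) ∧ ∀ i, |row A y i| ≤ c * √n := by
  obtain ⟨y, hy1, hy2⟩ := main_param hA (s := p * √3) (x0 := x0) (t := clock M0 q) hM
    (hM1.trans hn) hq hqM (by nlinarith [sqrt_three_pos]) hx0 (clock_base hqM)
    (fun l hl _ => clock_step hqM hl) h1 h2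
  refine ⟨y, hy1, fun i => (hy2 i).trans ?_⟩
  have hn1 : (0 : ℝ) < n1 := by exact_mod_cast (by omega : 0 < n1)
  have hn' : (n1 : ℝ) ≤ n := by exact_mod_cast hn
  have e1 : p * √3 * √(tau M0) = p * √(3 * tau M0) := by
    rw [Real.sqrt_mul (by norm_num), mul_assoc]
  have hqn : (q : ℝ) ≤ n1 := by exact_mod_cast hqM.trans hM1
  have hρ : 1 ≤ 1 + (q : ℝ) / ((n1 : ℝ) - q + 1 / 2) := by
    have : 0 ≤ (q : ℝ) / ((n1 : ℝ) - q + 1 / 2) := div_nonneg (Nat.cast_nonneg q) (by linarith)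
    linarith
  have key := sqrt_growth hn1 hn' hT1n hx0 hρ hc hG
  have h3 : clock M0 q n ≤ T1 + (1 + q / ((n1 : ℝ) - q + 1 / 2)) * ((n : ℝ) - n1) := by
    have := clock_le hqM hM1 hn
    linarith
  have h4 : x0 * √(clock M0 q n) ≤
      x0 * √(T1 + (1 + q / ((n1 : ℝ) - q + 1 / 2)) * ((n : ℝ) - n1)) :=
    mul_le_mul_of_nonneg_left (Real.sqrt_le_sqrt h3) hx0
  rw [e1]
  linarith

end Pool.Agent.Lib.MP_ad55ca_co.Upper
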