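import Pool.Agent.Lib.MP_ad55ca_co.Upper.Pot
import Pool.Agent.Lib.MP_ad55ca_co.Upper.Dir

/-!
# MP_ad55ca_co (upper bound): one stage of the process
-/

open Filter Topology MeasureTheory Set

noncomputable section

namespace Pool.Agent.Lib.MP_ad55ca_co.Upper

variable {n : ℕ}

/-- row sums -/
def row (A : Fin n → Fin n → ℝ) (x : Fin n → ℝ) (i : Fin n) : ℝ := ∑ j, A i j * x j

/-- the cube -/
def cube (n : ℕ) : Set (Fin n → ℝ) := Icc (fun _ => -1) (fun _ => 1)

lemma mem_cube {x : Fin n → ℝ} : x ∈ cube n ↔ ∀ j, |x j| ≤ 1 := by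
  simp only [cube, mem_Icc, Pi.le_def, abs_le]
  exact ⟨fun h j => ⟨h.1 j, h.2 j⟩, fun h => ⟨fun j => (h j).1, fun j => (h j).2⟩⟩

lemma row_cont (A : Fin n → Fin n → ℝ) (i : Fin n) : Continuous fun x => row A x i := by
  unfold row; fun_prop

lemma row_move (A : Fin n → Fin n → ℝ) (x v : Fin n → ℝ) (δ : ℝ) (i : Fin n) :
    row A (fun j => x j + δ * v j) i = row A x i + δ * row A v i := by
  unfold row
  rw [Finset.mul_sum, ← Finset.sum_add_distrib]
  exact Finset.sum_congr rfl fun j _ => by ring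

/-- second order descent -/
lemma descent {g g' : ℝ → ℝ} {c : ℝ} (h : ∀ᶠ δ in 𝓝 (0 : ℝ), HasDerivAt g (g' δ) δ)
    (h0 : g' 0 ≤ 0) (h1 : HasDerivAt g' c 0) (hc : c < 0) : ∀ᶠ δ in 𝓝[>] (0 : ℝ), g δ < g 0 := by
  have h2 : ∀ᶠ δ in 𝓝[≠] (0 : ℝ), slope g' 0 δ < 0 :=
    (hasDerivAt_iff_tendsto_slope.mp h1).eventually (eventually_lt_nhds hc)
  have h3 : ∀ᶠ δ in 𝓝[>] (0 : ℝ), slope g' 0 δ < 0 :=
    h2.filter_mono (nhdsWithin_mono 0 fun x hx => ne_of_gt hx)
  have h4 : ∀ᶠ δ in 𝓝[>] (0 : ℝ), g' δ < 0 := by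
    filter_upwards [h3, self_mem_nhdsWithin] with δ hδ hpos
    have hpos' : (0 : ℝ) < δ := hpos
    rw [slope_def_field, sub_zero, div_neg_iff] at hδ
    rcases hδ with hδ | hδ
    · linarith [hδ.2]
    · linarith [hδ.1]
  obtain ⟨ρ, hρ, h5⟩ := (mem_nhdsGT_iff_exists_Ioo_subset).mp h4
  obtain ⟨ρ', hρ', h6⟩ := Metric.eventually_nhds_iff.mp h
  have hm : Ioo (0 : ℝ) (min ρ ρ') ∈ 𝓝[>] (0 : ℝ) := Ioo_mem_nhdsGT (lt_min hρ hρ')
  filter_upwards [hm] with δ hδ
  have hd : ∀ z ∈ Icc 0 δ, HasDerivAt g (g' z) z := by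
    intro z hz
    apply h6
    rw [Real.dist_eq, sub_zero, abs_of_nonneg hz.1]
    exact lt_of_le_of_lt hz.2 (lt_of_lt_of_le hδ.2 (min_le_right _ _))
  obtain ⟨z, hz, hz'⟩ := exists_hasDerivAt_eq_slope g g' hδ.1
    (fun z hz => (hd z hz).continuousAt.continuousWithinAt)
    (fun z hz => hd z ⟨hz.1.le, hz.2.le⟩)
  have h7 : g' z < 0 := h5 ⟨hz.1, lt_of_lt_of_le (hz.2.trans hδ.2) (min_le_left _ _)⟩
  rw [hz', sub_zero] at h7
  have hδ0 : (0 : ℝ) < δ := hδ.1
  have := (div_neg_iff.mp h7)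
  rcases this with h8 | h8
  · linarith [h8.2]
  · linarith [h8.1]

/-- data of a stage -/
structure StageHyp (f F1 F2 : ℝ → ℝ → ℝ) (β : ℝ → ℝ) (F c r t0 t1 : ℝ) (m k : ℕ) : Prop where
  pot : Pot f F1 F2
  cont : ContinuousOn (fun p : ℝ × ℝ => f p.1 p.2) (univ ×ˢ Ioi 0)
  t0_pos : 0 < t0
  t01 : t0 ≤ t1
  r_pos : 0 < r
  rate : (m : ℝ) ≤ r * (m - k - 1)
  km : k + 1 < m
  β_cont : Continuous β
  β_anti : AntitoneOn β (Icc t0 t1)
  f_nn : ∀ t ∈ Icc t0 t1, ∀ S, |S| ≤ β t → 0 ≤ f S t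
  F2_nn : ∀ t ∈ Icc t0 t1, ∀ S, |S| ≤ β t → 0 ≤ F2 S t
  f_bd : ∀ t ∈ Icc t0 t1, ∀ S, |S| = β t → c ≤ f S t
  Fc : F < (k + 1) * c
  c_pos : 0 < c

/-- the state at the end of a stage -/
def State (A : Fin n → Fin n → ℝ) (f : ℝ → ℝ → ℝ) (β : ℝ → ℝ) (F t Y : ℝ) (x : Fin n → ℝ) : Prop :=
  x ∈ cube n ∧ (n : ℝ) - ∑ j, x j ^ 2 ≤ Y ∧ (∀ i, |row A x i| ≤ β t) ∧ ∑ i, f (row A x i) t ≤ F

section

variable {A : Fin n → Fin n → ℝ} {f F1 F2 : ℝ → ℝ → ℝ} {β : ℝ → ℝ} {F c r t0 t1 : ℝ} {m k : ℕ}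

/-- existence of a good direction at a point with `t > t0` -/
lemma good_dir (hA : ∀ i j, A i j ^ 2 = 1) (H : StageHyp f F1 F2 β F c r t0 t1 m k)
    {ε : ℝ} (hε : 0 ≤ ε) (hεF : F + ε * (t1 - t0) < (k + 1) * c) {x : Fin n → ℝ} {t : ℝ}
    (hx : x ∈ cube n) (ht : t ∈ Icc t0 t1) (htt : t0 < t)
    (hY : (n : ℝ) - ∑ j, x j ^ 2 ≤ (m - 1) + (t - t0) / r)
    (hS : ∀ i, |row A x i| ≤ β t) (hF : ∑ i, f (row A x i) t ≤ F + ε * (t1 - t)) :
    ∃ v : Fin n → ℝ, (∀ j, x j ^ 2 = 1 → v j = 0) ∧ (∀ i, |row A x i| = β t → row A v i = 0) ∧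
      ∑ i, row A v i * F1 (row A x i) t ≤ 0 ∧
      ∑ i, (row A v i ^ 2 - r) * F2 (row A x i) t ≤ 0 ∧
      ∀ᶠ δ in 𝓝[>] (0 : ℝ), (n : ℝ) - ∑ j, (x j + δ * v j) ^ 2 ≤
        (m - 1) + (t - r * δ ^ 2 - t0) / r := by
  classical
  have hr := H.r_pos
  have hx' := mem_cube.mp hx
  have hF2 : ∀ i, 0 ≤ F2 (row A x i) t := fun i => H.F2_nn t ht _ (hS i)
  by_cases hcase : (n : ℝ) - ∑ j, x j ^ 2 ≤ m - 1
  · -- nothing has to be moved
    have hrow : ∀ i, row A (0 : Fin n → ℝ) i = 0 := fun i => by simp [row]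
    refine ⟨0, fun j _ => rfl, fun i _ => hrow i, ?_, ?_, ?_⟩
    · simp [hrow]
    · refine Finset.sum_nonpos fun i _ => ?_
      rw [hrow i]
      have := hF2 i
      nlinarith
    · have hlim : Tendsto (fun δ : ℝ => (t - r * δ ^ 2 - t0) / r) (𝓝 0) (𝓝 ((t - t0) / r)) := by
        have hc : Continuous fun δ : ℝ => (t - r * δ ^ 2 - t0) / r := by fun_prop
        have := hc.tendsto 0
        simpa using this
      have hpos : 0 < (t - t0) / r := div_pos (by linarith) hr
      have h1 : ∀ᶠ δ in 𝓝[>] (0 : ℝ), 0 < (t - r * δ ^ 2 - t0) / r :=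
        (hlim.eventually (eventually_gt_nhds hpos)).filter_mono nhdsWithin_le_nhds
      filter_upwards [h1] with δ hδ
      simp only [Pi.zero_apply, mul_zero, add_zero]
      linarith
  · push Not at hcase
    set L : Finset (Fin n) := Finset.univ.filter fun j => x j ^ 2 ≠ 1 with hL
    set B : Finset (Fin n) := Finset.univ.filter fun i => |row A x i| = β t with hB
    have hLm : m ≤ L.card := by
      have h1 : (n : ℝ) - ∑ j, x j ^ 2 ≤ L.card := by
        have h2 : (n : ℝ) - ∑ j, x j ^ 2 = ∑ j, (1 - x j ^ 2) := by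
          rw [Finset.sum_sub_distrib]; simp
        rw [h2]
        have h3 : ∀ j, 1 - x j ^ 2 ≤ if j ∈ L then (1 : ℝ) else 0 := by
          intro j
          by_cases hj : j ∈ L
          · rw [if_pos hj]; nlinarith [sq_nonneg (x j)]
          · rw [if_neg hj]
            have : x j ^ 2 = 1 := by
              by_contra h
              exact hj (Finset.mem_filter.mpr ⟨Finset.mem_univ j, h⟩)
            linarith
        refine (Finset.sum_le_sum fun j _ => h3 j).trans ?_
        simp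
      have h4 : (m : ℝ) - 1 < L.card := lt_of_lt_of_le hcase h1
      have h5 : (m : ℝ) < L.card + 1 := by linarith
      have h6 : m < L.card + 1 := by exact_mod_cast h5
      omega
    have hBk : B.card ≤ k := by
      by_contra hcon
      push Not at hcon
      have h1 : (B.card : ℝ) * c ≤ ∑ i, f (row A x i) t := by
        calc (B.card : ℝ) * c = ∑ _i ∈ B, c := by simp
          _ ≤ ∑ i ∈ B, f (row A x i) t := Finset.sum_le_sum fun i hi =>
              H.f_bd t ht _ (Finset.mem_filter.mp hi).2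
          _ ≤ ∑ i, f (row A x i) t := Finset.sum_le_sum_of_subset_of_nonneg (Finset.subset_univ B)
              fun i _ _ => H.f_nn t ht _ (hS i)
      have h2 : ((k : ℝ) + 1) * c ≤ B.card * c := by
        refine mul_le_mul_of_nonneg_right ?_ H.c_pos.le
        exact_mod_cast hcon
      have h3 : ε * (t1 - t) ≤ ε * (t1 - t0) := mul_le_mul_of_nonneg_left (by linarith) hε
      linarith
    have hcard : B.card + 1 < L.card := by have := H.km; omega
    obtain ⟨v0, hv1, hv2, hv3, hv4, hv5⟩ := exists_dir A hA L B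
      (fun j => (∑ i, F1 (row A x i) t * A i j) + x j) (fun i => F2 (row A x i) t) hF2 hcard
    -- choose the sign
    obtain ⟨v, hw1, hw2, hw3, hw4, hw5, hw6⟩ : ∃ v : Fin n → ℝ, (∀ j ∉ L, v j = 0) ∧
        (∀ i ∈ B, row A v i = 0) ∧
        ∑ j, ((∑ i, F1 (row A x i) t * A i j) + x j) * v j = 0 ∧ ∑ j, v j ^ 2 = 1 ∧
        ((L.card : ℝ) - B.card - 1) * ∑ i, F2 (row A x i) t * (row A v i) ^ 2 ≤
          L.card * ∑ i ∈ Bᶜ, F2 (row A x i) t ∧ 0 ≤ ∑ j, x j * v j := by
      rcases le_total 0 (∑ j, x j * v0 j) with hs | hs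
      · exact ⟨v0, hv1, hv2, hv3, hv4, hv5, hs⟩
      · refine ⟨fun j => - v0 j, fun j hj => by simp [hv1 j hj], fun i hi => ?_, ?_, ?_, ?_, ?_⟩
        · have := hv2 i hi
          simp only [row, mul_neg, Finset.sum_neg_distrib, this, neg_zero]
        · simp only [mul_neg, Finset.sum_neg_distrib, hv3, neg_zero]
        · simpa using hv4
        · have e : ∀ i, row A (fun j => - v0 j) i ^ 2 = (∑ j, A i j * v0 j) ^ 2 := by
            intro i
            simp only [row, mul_neg, Finset.sum_neg_distrib, neg_sq]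
          simp only [e]
          exact hv5
        · simp only [mul_neg, Finset.sum_neg_distrib]
          linarith
    refine ⟨v, ?_, ?_, ?_, ?_, ?_⟩
    · intro j hj
      apply hw1
      intro hjL
      exact (Finset.mem_filter.mp hjL).2 hj
    · intro i hi
      exact hw2 i (Finset.mem_filter.mpr ⟨Finset.mem_univ i, hi⟩)
    · have e : ∑ i, row A v i * F1 (row A x i) t = ∑ j, (∑ i, F1 (row A x i) t * A i j) * v j := by
        simp only [row, Finset.sum_mul]
        rw [Finset.sum_comm]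
        refine Finset.sum_congr rfl fun j _ => Finset.sum_congr rfl fun i _ => by ring
      have e2 : ∑ j, ((∑ i, F1 (row A x i) t * A i j) + x j) * v j =
          (∑ j, (∑ i, F1 (row A x i) t * A i j) * v j) + ∑ j, x j * v j := by
        rw [← Finset.sum_add_distrib]
        exact Finset.sum_congr rfl fun j _ => by ring
      rw [e2, ← e] at hw3
      linarith
    · -- the trace bound
      set P : ℝ := ∑ i ∈ Bᶜ, F2 (row A x i) t with hP
      have hP0 : 0 ≤ P := Finset.sum_nonneg fun i _ => hF2 i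
      have hPle : P ≤ ∑ i, F2 (row A x i) t :=
        Finset.sum_le_sum_of_subset_of_nonneg (Finset.subset_univ _) fun i _ _ => hF2 i
      have hd : (0 : ℝ) < (L.card : ℝ) - B.card - 1 := by
        have : ((B.card : ℝ) + 1) < L.card := by exact_mod_cast hcard
        linarith
      have hrate : (L.card : ℝ) ≤ r * ((L.card : ℝ) - B.card - 1) := by
        have h1 := H.rate
        have h2 : (m : ℝ) ≤ L.card := by exact_mod_cast hLm
        have h3 : (B.card : ℝ) ≤ k := by exact_mod_cast hBk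
        have h4 : ((k : ℝ) + 1) < m := by exact_mod_cast H.km
        have h5 : 1 ≤ r := by
          by_contra hlt
          push Not at hlt
          have : r * ((m : ℝ) - k - 1) < 1 * ((m : ℝ) - k - 1) :=
            mul_lt_mul_of_pos_right hlt (by linarith)
          have hk0 : (0 : ℝ) ≤ k := Nat.cast_nonneg k
          linarith
        nlinarith [mul_nonneg (sub_nonneg.mpr h5) (sub_nonneg.mpr h2),
          mul_nonneg hr.le (sub_nonneg.mpr h3)]
      set X : ℝ := ∑ i, F2 (row A x i) t * (row A v i) ^ 2 with hX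
      have hXle : X ≤ r * P := by
        have h1 : ((L.card : ℝ) - B.card - 1) * X ≤ ((L.card : ℝ) - B.card - 1) * (r * P) := by
          calc ((L.card : ℝ) - B.card - 1) * X ≤ L.card * P := hw5
            _ ≤ (r * ((L.card : ℝ) - B.card - 1)) * P := mul_le_mul_of_nonneg_right hrate hP0
            _ = _ := by ring
        exact le_of_mul_le_mul_left h1 hd
      have e : ∑ i, (row A v i ^ 2 - r) * F2 (row A x i) t =
          X - r * ∑ i, F2 (row A x i) t := by
        rw [hX, Finset.mul_sum, ← Finset.sum_sub_distrib]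
        exact Finset.sum_congr rfl fun i _ => by ring
      rw [e]
      have := mul_le_mul_of_nonneg_left hPle hr.le
      linarith
    · filter_upwards [self_mem_nhdsWithin] with δ hδ
      have hδ' : (0 : ℝ) < δ := hδ
      have e : ∑ j, (x j + δ * v j) ^ 2 = ∑ j, x j ^ 2 + 2 * δ * ∑ j, x j * v j +
          δ ^ 2 * ∑ j, v j ^ 2 := by
        rw [Finset.mul_sum, Finset.mul_sum, ← Finset.sum_add_distrib, ← Finset.sum_add_distrib]
        exact Finset.sum_congr rfl fun j _ => by ring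
      rw [e, hw4]
      have e2 : (t - r * δ ^ 2 - t0) / r = (t - t0) / r - δ ^ 2 := by
        field_simp
        ring
      rw [e2]
      have := mul_nonneg hδ'.le hw6
      linarith

theorem stage_eps (hA : ∀ i j, A i j ^ 2 = 1) (H : StageHyp f F1 F2 β F c r t0 t1 m k)
    {ε : ℝ} (hε : 0 < ε) (hεF : F + ε * (t1 - t0) < (k + 1) * c) {x0 : Fin n → ℝ}
    (hx0 : State A f β F t1 ((m - 1) + (t1 - t0) / r) x0) :
    ∃ x, State A f β (F + ε * (t1 - t0)) t0 (m - 1) x := by
  classical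
  have hr := H.r_pos
  set C0 : Set ((Fin n → ℝ) × ℝ) := cube n ×ˢ Icc t0 t1 with hC0
  have hC0c : IsCompact C0 := isCompact_Icc.prod isCompact_Icc
  set G : (Fin n → ℝ) × ℝ → ℝ := fun p => ∑ i, f (row A p.1 i) p.2 - (F + ε * (t1 - p.2)) with hG
  have hGc : ContinuousOn G C0 := by
    refine ContinuousOn.sub (continuousOn_finsetSum _ fun i _ => ?_) (by fun_prop)
    have h1 : ContinuousOn (fun p : (Fin n → ℝ) × ℝ => (row A p.1 i, p.2)) C0 :=
      (((row_cont A i).comp continuous_fst).prodMk continuous_snd).continuousOn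
    refine H.cont.comp h1 ?_
    intro p hp
    exact ⟨mem_univ _, lt_of_lt_of_le H.t0_pos hp.2.1⟩
  set K1 : Set ((Fin n → ℝ) × ℝ) :=
    {p | (n : ℝ) - ∑ j, p.1 j ^ 2 ≤ (m - 1) + (p.2 - t0) / r} with hK1
  have hK1c : IsClosed K1 := isClosed_le (by fun_prop) (by fun_prop)
  set K2 : Set ((Fin n → ℝ) × ℝ) := {p | ∀ i, |row A p.1 i| ≤ β p.2} with hK2
  have hK2c : IsClosed K2 := by
    rw [hK2, ofPred_forall]
    refine isClosed_iInter fun i => isClosed_le ?_ ?_
    · exact ((row_cont A i).comp continuous_fst).abs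
    · exact H.β_cont.comp continuous_snd
  set K3 : Set ((Fin n → ℝ) × ℝ) := C0 ∩ G ⁻¹' (Iic 0) with hK3
  have hK3c : IsClosed K3 := hGc.preimage_isClosed_of_isClosed hC0c.isClosed isClosed_Iic
  set KK : Set ((Fin n → ℝ) × ℝ) := C0 ∩ (K1 ∩ (K2 ∩ K3)) with hKK
  have hKKc : IsCompact KK := hC0c.inter_right (hK1c.inter (hK2c.inter hK3c))
  obtain ⟨h01, h02, h03, h04⟩ := hx0
  have ht1 : t1 ∈ Icc t0 t1 := ⟨H.t01, le_rfl⟩
  have hne : KK.Nonempty := by
    refine ⟨(x0, t1), ⟨h01, ht1⟩, h02, h03, ⟨h01, ht1⟩, ?_⟩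
    simp only [hG, mem_preimage, mem_Iic]
    linarith
  obtain ⟨⟨x, t⟩, hxt, hmin⟩ := hKKc.exists_isMinOn hne continuous_snd.continuousOn
  obtain ⟨⟨hx, ht⟩, hY, hS, _, hGle⟩ := hxt
  simp only at hx ht
  have hY' : (n : ℝ) - ∑ j, x j ^ 2 ≤ (m - 1) + (t - t0) / r := hY
  have hS' : ∀ i, |row A x i| ≤ β t := hS
  have hF' : ∑ i, f (row A x i) t ≤ F + ε * (t1 - t) := by
    simp only [hG, mem_preimage, mem_Iic] at hGle
    linarith
  rcases eq_or_lt_of_le ht.1 with htt | htt
  · -- we are at the end of the stage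
    subst htt
    refine ⟨x, hx, ?_, hS', hF'⟩
    rw [sub_self, zero_div, add_zero] at hY'
    exact hY'
  · exfalso
    obtain ⟨v, hv1, hv2, hv3, hv4, hv5⟩ := good_dir hA H hε.le hεF hx ht htt hY' hS' hF'
    have hx' := mem_cube.mp hx
    -- (i)
    have c1 : ∀ᶠ δ in 𝓝[>] (0 : ℝ), (fun j => x j + δ * v j) ∈ cube n := by
      have h1 : ∀ j, ∀ᶠ δ in 𝓝[>] (0 : ℝ), |x j + δ * v j| ≤ 1 := by
        intro j
        by_cases hj : x j ^ 2 = 1
        · rw [hv1 j hj]
          filter_upwards with δ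
          simpa using hx' j
        · have h2 : |x j| < 1 := by
            refine lt_of_le_of_ne (hx' j) fun h => hj ?_
            rw [← sq_abs, h]; norm_num
          have h3 : Tendsto (fun δ : ℝ => |x j + δ * v j|) (𝓝 0) (𝓝 |x j|) := by
            have hc : Continuous fun δ : ℝ => |x j + δ * v j| := by fun_prop
            have := hc.tendsto 0
            simpa using this
          have h4 := (h3.eventually (eventually_lt_nhds h2)).filter_mono
            (nhdsWithin_le_nhds (s := Ioi (0 : ℝ)))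
          filter_upwards [h4] with δ hδ
          exact hδ.le
      filter_upwards [eventually_all.mpr h1] with δ hδ
      exact mem_cube.mpr hδ
    -- (ii)
    have c2 : ∀ᶠ δ in 𝓝[>] (0 : ℝ), t - r * δ ^ 2 ∈ Icc t0 t1 ∧ t - r * δ ^ 2 < t := by
      have h3 : Tendsto (fun δ : ℝ => t - r * δ ^ 2) (𝓝 0) (𝓝 t) := by
        have hc : Continuous fun δ : ℝ => t - r * δ ^ 2 := by fun_prop
        have := hc.tendsto 0
        simpa using this
      have h4 := (h3.eventually (eventually_gt_nhds htt)).filter_mono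
        (nhdsWithin_le_nhds (s := Ioi (0 : ℝ)))
      filter_upwards [h4, self_mem_nhdsWithin] with δ hδ hpos
      have hpos' : (0 : ℝ) < δ := hpos
      have h5 : 0 < r * δ ^ 2 := by positivity
      exact ⟨⟨hδ.le, by linarith [ht.2]⟩, by linarith⟩
    -- (iii)
    have c3 : ∀ᶠ δ in 𝓝[>] (0 : ℝ), ∀ i, |row A x i + δ * row A v i| ≤ β t := by
      rw [eventually_all]
      intro i
      by_cases hi : |row A x i| = β t
      · rw [hv2 i hi]
        filter_upwards with δ
        rw [mul_zero, add_zero]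
        exact hi.le
      · have h2 : |row A x i| < β t := lt_of_le_of_ne (hS' i) hi
        have h3 : Tendsto (fun δ : ℝ => |row A x i + δ * row A v i|) (𝓝 0) (𝓝 |row A x i|) := by
          have hc : Continuous fun δ : ℝ => |row A x i + δ * row A v i| := by fun_prop
          have := hc.tendsto 0
          simpa using this
        have h4 := (h3.eventually (eventually_lt_nhds h2)).filter_mono
          (nhdsWithin_le_nhds (s := Ioi (0 : ℝ)))
        filter_upwards [h4] with δ hδ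
        exact hδ.le
    -- (iv)
    have htpos : 0 < t := lt_trans H.t0_pos htt
    choose gi hg1 hg2 hg3 using fun i => H.pot (row A x i) (row A v i) r t htpos
    have c4 : ∀ᶠ δ in 𝓝[>] (0 : ℝ),
        ∑ i, f (row A x i + δ * row A v i) (t - r * δ ^ 2) - ε * (r * δ ^ 2) <
          ∑ i, f (row A x i + 0 * row A v i) (t - r * 0 ^ 2) - ε * (r * 0 ^ 2) := by
      refine descent (g := fun δ => ∑ i, f (row A x i + δ * row A v i) (t - r * δ ^ 2) -
        ε * (r * δ ^ 2)) (g' := fun δ => ∑ i, gi i δ - ε * (r * (2 * δ)))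
        (c := ∑ i, (row A v i ^ 2 - r) * F2 (row A x i) t - ε * (r * 2)) ?_ ?_ ?_ ?_
      · filter_upwards [eventually_all.mpr hg1] with δ hδ
        refine HasDerivAt.fun_sub (HasDerivAt.fun_sum fun i _ => hδ i) ?_
        have := ((hasDerivAt_pow 2 δ).const_mul r).const_mul ε
        refine this.congr_deriv ?_
        simp
      · simp only [hg2, mul_zero, sub_zero]
        exact hv3
      · refine HasDerivAt.fun_sub (HasDerivAt.fun_sum fun i _ => hg3 i) ?_
        have := (((hasDerivAt_id' (0 : ℝ)).const_mul 2).const_mul r).const_mul ε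
        refine this.congr_deriv ?_
        ring
      · have : 0 < ε * (r * 2) := by positivity
        linarith
    obtain ⟨δ, d1, d2, d3, d4, d5⟩ := (c1.and (c2.and (c3.and (c4.and hv5)))).exists
    have hmem : ((fun j => x j + δ * v j), t - r * δ ^ 2) ∈ KK := by
      refine ⟨⟨d1, d2.1⟩, d5, ?_, ⟨d1, d2.1⟩, ?_⟩
      · intro i
        show |row A (fun j => x j + δ * v j) i| ≤ β (t - r * δ ^ 2)
        rw [row_move]
        exact (d3 i).trans (H.β_anti d2.1 ht d2.2.le)
      · show ∑ i, f (row A (fun j => x j + δ * v j) i) (t - r * δ ^ 2) -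
          (F + ε * (t1 - (t - r * δ ^ 2))) ≤ 0
        simp only [row_move]
        simp only [zero_mul, add_zero, ne_eq, OfNat.ofNat_ne_zero, not_false_eq_true, zero_pow,
          mul_zero, sub_zero] at d4
        linarith
    have := hmin hmem
    simp only [mem_ofPred_eq] at this
    linarith [d2.2]

/-- one stage -/
theorem stage (hA : ∀ i j, A i j ^ 2 = 1) (H : StageHyp f F1 F2 β F c r t0 t1 m k)
    {x0 : Fin n → ℝ} (hx0 : State A f β F t1 ((m - 1) + (t1 - t0) / r) x0) :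
    ∃ x, State A f β F t0 (m - 1) x := by
  set S0 : Set (Fin n → ℝ) := cube n ∩ ({x | (n : ℝ) - ∑ j, x j ^ 2 ≤ m - 1} ∩
    {x | ∀ i, |row A x i| ≤ β t0}) with hS0
  have hS0c : IsCompact S0 := by
    refine isCompact_Icc.inter_right (IsClosed.inter ?_ ?_)
    · exact isClosed_le (by fun_prop) (by fun_prop)
    · rw [ofPred_forall]
      exact isClosed_iInter fun i => isClosed_le (row_cont A i).abs continuous_const
  have hΦ : ContinuousOn (fun x => ∑ i, f (row A x i) t0) S0 := by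
    refine continuousOn_finsetSum _ fun i _ => ?_
    have h1 : ContinuousOn (fun x : Fin n → ℝ => (row A x i, t0)) S0 :=
      ((row_cont A i).prodMk continuous_const).continuousOn
    exact H.cont.comp h1 fun x _ => ⟨mem_univ _, H.t0_pos⟩
  have hex : ∀ ε : ℝ, 0 < ε → F + ε * (t1 - t0) < (k + 1) * c →
      ∃ x ∈ S0, ∑ i, f (row A x i) t0 ≤ F + ε * (t1 - t0) := by
    intro ε hε hεF
    obtain ⟨x, h1, h2, h3, h4⟩ := stage_eps hA H hε hεF hx0
    exact ⟨x, ⟨h1, h2, h3⟩, h4⟩
  have hgap : 0 < (k + 1) * c - F := by linarith [H.Fc]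
  have hd : 0 ≤ t1 - t0 := by linarith [H.t01]
  have hex' : ∀ η : ℝ, 0 < η → ∃ x ∈ S0, ∑ i, f (row A x i) t0 ≤ F + η := by
    intro η hη
    set ε : ℝ := min (η / (t1 - t0 + 1)) (((k + 1) * c - F) / (2 * (t1 - t0 + 1))) with hε
    have h1 : 0 < t1 - t0 + 1 := by linarith
    have hεpos : 0 < ε := lt_min (by positivity) (by positivity)
    have h2 : ε * (t1 - t0) ≤ η := by
      calc ε * (t1 - t0) ≤ η / (t1 - t0 + 1) * (t1 - t0) :=
            mul_le_mul_of_nonneg_right (min_le_left _ _) hd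
        _ ≤ η / (t1 - t0 + 1) * (t1 - t0 + 1) :=
            mul_le_mul_of_nonneg_left (by linarith) (by positivity)
        _ = η := by field_simp
    have h3 : F + ε * (t1 - t0) < (k + 1) * c := by
      have h4 : ε * (t1 - t0) ≤ ((k + 1) * c - F) / 2 := by
        calc ε * (t1 - t0) ≤ ((k + 1) * c - F) / (2 * (t1 - t0 + 1)) * (t1 - t0) :=
              mul_le_mul_of_nonneg_right (min_le_right _ _) hd
          _ ≤ ((k + 1) * c - F) / (2 * (t1 - t0 + 1)) * (t1 - t0 + 1) :=
              mul_le_mul_of_nonneg_left (by linarith) (by positivity)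
          _ = ((k + 1) * c - F) / 2 := by field_simp
      linarith
    obtain ⟨x, hx, hx2⟩ := hex ε hεpos h3
    exact ⟨x, hx, by linarith⟩
  obtain ⟨y, hy, _⟩ := hex' 1 one_pos
  obtain ⟨x, hx, hmin⟩ := hS0c.exists_isMinOn ⟨y, hy⟩ hΦ
  refine ⟨x, hx.1, hx.2.1, hx.2.2, ?_⟩
  refine le_of_forall_pos_le_add fun η hη => ?_
  obtain ⟨z, hz, hz2⟩ := hex' η hη
  exact (hmin hz).trans hz2

end

end Pool.Agent.Lib.MP_ad55ca_co.Upper
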