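import Pool.Agent.Lib.MP_ad55ca_co.Upper.Num

/-!
# MP_ad55ca_co (upper bound): the table for matrices of medium size
-/

open Filter Topology MeasureTheory Set

noncomputable section

namespace Pool.Agent.Lib.MP_ad55ca_co.Upper

variable {n : ℕ}

lemma Q_250 : Q (5 / 2) ≤ (1250677 / 100000000) :=
  Q_num (u := (21968467 / 500000000)) (by norm_num) (by norm_num [Finset.sum_range_succ, Nat.factorial]) (by norm_num)

lemma Q_255 : Q (51 / 20) ≤ (542103 / 50000000) :=
  Q_num (u := (38725771 / 1000000000)) (by norm_num) (by norm_num [Finset.sum_range_succ, Nat.factorial]) (by norm_num)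

lemma Q_260 : Q (13 / 5) ≤ (937797 / 100000000) :=
  Q_num (u := (1063983 / 31250000)) (by norm_num) (by norm_num [Finset.sum_range_succ, Nat.factorial]) (by norm_num)

lemma Q_265 : Q (53 / 20) ≤ (809341 / 100000000) :=
  Q_num (u := (1866223 / 62500000)) (by norm_num) (by norm_num [Finset.sum_range_succ, Nat.factorial]) (by norm_num)

lemma Q_270 : Q (27 / 10) ≤ (69691 / 10000000) :=
  Q_num (u := (6530353 / 250000000)) (by norm_num) (by norm_num [Finset.sum_range_succ, Nat.factorial]) (by norm_num)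

lemma Q_275 : Q (11 / 4) ≤ (299371 / 50000000) :=
  Q_num (u := (2849273 / 125000000)) (by norm_num) (by norm_num [Finset.sum_range_succ, Nat.factorial]) (by norm_num)

lemma Kh_127 : kaps ((127 / 100) * √3) ≤ (245121 / 100000) :=
  K_hi (u := (39877817 / 100000000)) (by norm_num) (by norm_num [Finset.sum_range_succ, Nat.factorial]) (by norm_num)

lemma Kl_127 : (2451209 / 1000000) ≤ kaps ((127 / 100) * √3) :=
  K_lo (v := (6334237 / 4000000)) (by norm_num) (by norm_num) (by norm_num)
    (by norm_num [Finset.sum_range_succ, Nat.factorial]) (by norm_num)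

lemma Kh_129 : kaps ((129 / 100) * √3) ≤ (2305753 / 1000000) :=
  K_hi (u := (36929851 / 100000000)) (by norm_num) (by norm_num [Finset.sum_range_succ, Nat.factorial]) (by norm_num)

lemma Kl_129 : (288219 / 125000) ≤ kaps ((129 / 100) * √3) :=
  K_lo (v := (82277527 / 50000000)) (by norm_num) (by norm_num) (by norm_num)
    (by norm_num [Finset.sum_range_succ, Nat.factorial]) (by norm_num)

lemma Kh_132 : kaps ((33 / 25) * √3) ≤ (2097921 / 1000000) :=
  K_hi (u := (32837469 / 100000000)) (by norm_num) (by norm_num [Finset.sum_range_succ, Nat.factorial]) (by norm_num)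

lemma Kl_132 : (6556 / 3125) ≤ kaps ((33 / 25) * √3) :=
  K_lo (v := (174507931 / 100000000)) (by norm_num) (by norm_num) (by norm_num)
    (by norm_num [Finset.sum_range_succ, Nat.factorial]) (by norm_num)

lemma Kh_133 : kaps ((133 / 100) * √3) ≤ (1015719 / 500000) :=
  K_hi (u := (15778891 / 50000000)) (by norm_num) (by norm_num [Finset.sum_range_succ, Nat.factorial]) (by norm_num)

lemma Kl_133 : (2031437 / 1000000) ≤ kaps ((133 / 100) * √3) :=
  K_lo (v := (44502743 / 25000000)) (by norm_num) (by norm_num) (by norm_num)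
    (by norm_num [Finset.sum_range_succ, Nat.factorial]) (by norm_num)

lemma Kh_134 : kaps ((67 / 50) * √3) ≤ (1966361 / 1000000) :=
  K_hi (u := (30318867 / 100000000)) (by norm_num) (by norm_num [Finset.sum_range_succ, Nat.factorial]) (by norm_num)

lemma Kl_134 : (49159 / 25000) ≤ kaps ((67 / 50) * √3) :=
  K_lo (v := (181611573 / 100000000)) (by norm_num) (by norm_num) (by norm_num)
    (by norm_num [Finset.sum_range_succ, Nat.factorial]) (by norm_num)

lemma Kh_135 : kaps ((27 / 20) * √3) ≤ (475673 / 250000) :=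
  K_hi (u := (14559927 / 50000000)) (by norm_num) (by norm_num [Finset.sum_range_succ, Nat.factorial]) (by norm_num)

lemma Kl_135 : (1902691 / 1000000) ≤ kaps ((27 / 20) * √3) :=
  K_lo (v := (185312797 / 100000000)) (by norm_num) (by norm_num) (by norm_num)
    (by norm_num [Finset.sum_range_succ, Nat.factorial]) (by norm_num)

lemma Kh_136 : kaps ((34 / 25) * √3) ≤ (1840431 / 1000000) :=
  K_hi (u := (6989967 / 25000000)) (by norm_num) (by norm_num [Finset.sum_range_succ, Nat.factorial]) (by norm_num)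

lemma Kl_136 : (184043 / 100000) ≤ kaps ((34 / 25) * √3) :=
  K_lo (v := (189117817 / 100000000)) (by norm_num) (by norm_num) (by norm_num)
    (by norm_num [Finset.sum_range_succ, Nat.factorial]) (by norm_num)

lemma Kh_137 : kaps ((137 / 100) * √3) ≤ (1779577 / 1000000) :=
  K_hi (u := (13419019 / 50000000)) (by norm_num) (by norm_num [Finset.sum_range_succ, Nat.factorial]) (by norm_num)

lemma Kl_137 : (222447 / 125000) ≤ kaps ((137 / 100) * √3) :=
  K_lo (v := (96514959 / 50000000)) (by norm_num) (by norm_num) (by norm_num)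
    (by norm_num [Finset.sum_range_succ, Nat.factorial]) (by norm_num)

lemma Kh_138 : kaps ((69 / 50) * √3) ≤ (26877 / 15625) :=
  K_hi (u := (25753491 / 100000000)) (by norm_num) (by norm_num [Finset.sum_range_succ, Nat.factorial]) (by norm_num)

lemma Kl_138 : (1720127 / 1000000) ≤ kaps ((69 / 50) * √3) :=
  K_lo (v := (78821 / 40000)) (by norm_num) (by norm_num) (by norm_num)
    (by norm_num [Finset.sum_range_succ, Nat.factorial]) (by norm_num)

lemma row_0 {A : Fin n → Fin n → ℝ} (hA : ∀ i j, A i j ^ 2 = 1) (h1 : 84 ≤ n) (h2 : n ≤ 104) :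
    ∃ y : Fin n → ℝ, (∀ j, y j = 1 ∨ y j = -1) ∧ ∀ i, |row A y i| ≤ (16 / 5) * √n :=
  row_num hA (a := 1) (n1 := 84) (n2 := 104) (q := 2) (tl := 4500000) (th := 4500000)
    (c := 16 / 5) (p := (129 / 100)) (x0 := (13 / 5)) (Kl := (288219 / 125000)) (Kh := (2305753 / 1000000))
    (Qb := (937797 / 100000000)) (l := (401 / 100)) (T1 := (2338 / 25)) (r1 := (483529 / 50000))
    (r2 := (11482 / 3125)) (r3 := (183303 / 20000))
    (by norm_num) (by rfl) (by rfl) (by norm_num) h1 h2 (by norm_num) (by norm_num)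
    (by norm_num) (by norm_num) Kl_129 Kh_129 (by norm_num) Q_260
    (by norm_num) (by norm_num) (by norm_num) (by norm_num) (by norm_num) (by norm_num)
    (by norm_num) (by norm_num) (by norm_num) (by norm_num) (by norm_num) (by norm_num)
    (by norm_num) (by norm_num)

lemma row_1 {A : Fin n → Fin n → ℝ} (hA : ∀ i j, A i j ^ 2 = 1) (h1 : 105 ≤ n) (h2 : n ≤ 120) :
    ∃ y : Fin n → ℝ, (∀ j, y j = 1 ∨ y j = -1) ∧ ∀ i, |row A y i| ≤ (16 / 5) * √n :=
  row_num hA (a := 1) (n1 := 105) (n2 := 120) (q := 2) (tl := 4500000) (th := 4500000)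
    (c := 16 / 5) (p := (129 / 100)) (x0 := (53 / 20)) (Kl := (288219 / 125000)) (Kh := (2305753 / 1000000))
    (Qb := (809341 / 100000000)) (l := (2119 / 500)) (T1 := (14372 / 125)) (r1 := (1072269 / 100000))
    (r2 := (11482 / 3125)) (r3 := (204939 / 20000))
    (by norm_num) (by rfl) (by rfl) (by norm_num) h1 h2 (by norm_num) (by norm_num)
    (by norm_num) (by norm_num) Kl_129 Kh_129 (by norm_num) Q_265
    (by norm_num) (by norm_num) (by norm_num) (by norm_num) (by norm_num) (by norm_num)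
    (by norm_num) (by norm_num) (by norm_num) (by norm_num) (by norm_num) (by norm_num)
    (by norm_num) (by norm_num)

lemma row_2 {A : Fin n → Fin n → ℝ} (hA : ∀ i j, A i j ^ 2 = 1) (h1 : 121 ≤ n) (h2 : n ≤ 140) :
    ∃ y : Fin n → ℝ, (∀ j, y j = 1 ∨ y j = -1) ∧ ∀ i, |row A y i| ≤ (16 / 5) * √n :=
  row_num hA (a := 1) (n1 := 121) (n2 := 140) (q := 2) (tl := 4500000) (th := 4500000)
    (c := 16 / 5) (p := (129 / 100)) (x0 := (27 / 10)) (Kl := (288219 / 125000)) (Kh := (2305753 / 1000000))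
    (Qb := (69691 / 10000000)) (l := (2191 / 500)) (T1 := (16408 / 125)) (r1 := (572853 / 50000))
    (r2 := (11482 / 3125)) (r3 := 11)
    (by norm_num) (by rfl) (by rfl) (by norm_num) h1 h2 (by norm_num) (by norm_num)
    (by norm_num) (by norm_num) Kl_129 Kh_129 (by norm_num) Q_270
    (by norm_num) (by norm_num) (by norm_num) (by norm_num) (by norm_num) (by norm_num)
    (by norm_num) (by norm_num) (by norm_num) (by norm_num) (by norm_num) (by norm_num)
    (by norm_num) (by norm_num)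

lemma row_3 {A : Fin n → Fin n → ℝ} (hA : ∀ i j, A i j ^ 2 = 1) (h1 : 141 ≤ n) (h2 : n ≤ 162) :
    ∃ y : Fin n → ℝ, (∀ j, y j = 1 ∨ y j = -1) ∧ ∀ i, |row A y i| ≤ (16 / 5) * √n :=
  row_num hA (a := 1) (n1 := 141) (n2 := 162) (q := 2) (tl := 4500000) (th := 4500000)
    (c := 16 / 5) (p := (129 / 100)) (x0 := (11 / 4)) (Kl := (288219 / 125000)) (Kh := (2305753 / 1000000))
    (Qb := (299371 / 50000000)) (l := (4537 / 1000)) (T1 := (1515741 / 10000)) (r1 := (246231 / 20000))
    (r2 := (11482 / 3125)) (r3 := (593717 / 50000))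
    (by norm_num) (by rfl) (by rfl) (by norm_num) h1 h2 (by norm_num) (by norm_num)
    (by norm_num) (by norm_num) Kl_129 Kh_129 (by norm_num) Q_275
    (by norm_num) (by norm_num) (by norm_num) (by norm_num) (by norm_num) (by norm_num)
    (by norm_num) (by norm_num) (by norm_num) (by norm_num) (by norm_num) (by norm_num)
    (by norm_num) (by norm_num)

lemma row_4 {A : Fin n → Fin n → ℝ} (hA : ∀ i j, A i j ^ 2 = 1) (h1 : 163 ≤ n) (h2 : n ≤ 187) :
    ∃ y : Fin n → ℝ, (∀ j, y j = 1 ∨ y j = -1) ∧ ∀ i, |row A y i| ≤ (16 / 5) * √n :=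
  row_num hA (a := 1) (n1 := 163) (n2 := 187) (q := 3) (tl := 4500000) (th := 4500000)
    (c := 16 / 5) (p := (69 / 50)) (x0 := (27 / 10)) (Kl := (1720127 / 1000000)) (Kh := (26877 / 15625))
    (Qb := (69691 / 10000000)) (l := (5779 / 1000)) (T1 := (181837 / 1000)) (r1 := (134847 / 10000))
    (r2 := (11482 / 3125)) (r3 := (638357 / 50000))
    (by norm_num) (by rfl) (by rfl) (by norm_num) h1 h2 (by norm_num) (by norm_num)
    (by norm_num) (by norm_num) Kl_138 Kh_138 (by norm_num) Q_270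
    (by norm_num) (by norm_num) (by norm_num) (by norm_num) (by norm_num) (by norm_num)
    (by norm_num) (by norm_num) (by norm_num) (by norm_num) (by norm_num) (by norm_num)
    (by norm_num) (by norm_num)

lemma row_5 {A : Fin n → Fin n → ℝ} (hA : ∀ i j, A i j ^ 2 = 1) (h1 : 188 ≤ n) (h2 : n ≤ 212) :
    ∃ y : Fin n → ℝ, (∀ j, y j = 1 ∨ y j = -1) ∧ ∀ i, |row A y i| ≤ (16 / 5) * √n :=
  row_num hA (a := 2) (n1 := 188) (n2 := 212) (q := 5) (tl := 9666666) (th := 9666668)
    (c := 16 / 5) (p := (33 / 25)) (x0 := (51 / 20)) (Kl := (6556 / 3125)) (Kh := (2097921 / 1000000))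
    (Qb := (542103 / 50000000)) (l := (1203 / 250)) (T1 := (2157267 / 10000)) (r1 := (367191 / 25000))
    (r2 := (538517 / 100000)) (r3 := (137113 / 10000))
    (by norm_num) (by rfl) (by rfl) (by norm_num) h1 h2 (by norm_num) (by norm_num)
    (by norm_num) (by norm_num) Kl_132 Kh_132 (by norm_num) Q_255
    (by norm_num) (by norm_num) (by norm_num) (by norm_num) (by norm_num) (by norm_num)
    (by norm_num) (by norm_num) (by norm_num) (by norm_num) (by norm_num) (by norm_num)
    (by norm_num) (by norm_num)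

lemma row_6 {A : Fin n → Fin n → ℝ} (hA : ∀ i j, A i j ^ 2 = 1) (h1 : 213 ≤ n) (h2 : n ≤ 243) :
    ∃ y : Fin n → ℝ, (∀ j, y j = 1 ∨ y j = -1) ∧ ∀ i, |row A y i| ≤ (16 / 5) * √n :=
  row_num hA (a := 2) (n1 := 213) (n2 := 243) (q := 4) (tl := 9666666) (th := 9666668)
    (c := 16 / 5) (p := (127 / 100)) (x0 := (53 / 20)) (Kl := (2451209 / 1000000)) (Kh := (245121 / 100000))
    (Qb := (809341 / 100000000)) (l := (554 / 125)) (T1 := (2343947 / 10000)) (r1 := (382749 / 25000))
    (r2 := (538517 / 100000)) (r3 := (1459451 / 100000))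
    (by norm_num) (by rfl) (by rfl) (by norm_num) h1 h2 (by norm_num) (by norm_num)
    (by norm_num) (by norm_num) Kl_127 Kh_127 (by norm_num) Q_265
    (by norm_num) (by norm_num) (by norm_num) (by norm_num) (by norm_num) (by norm_num)
    (by norm_num) (by norm_num) (by norm_num) (by norm_num) (by norm_num) (by norm_num)
    (by norm_num) (by norm_num)

lemma row_7 {A : Fin n → Fin n → ℝ} (hA : ∀ i j, A i j ^ 2 = 1) (h1 : 244 ≤ n) (h2 : n ≤ 276) :
    ∃ y : Fin n → ℝ, (∀ j, y j = 1 ∨ y j = -1) ∧ ∀ i, |row A y i| ≤ (16 / 5) * √n :=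
  row_num hA (a := 3) (n1 := 244) (n2 := 276) (q := 7) (tl := 14516666) (th := 14516670)
    (c := 16 / 5) (p := (33 / 25)) (x0 := (5 / 2)) (Kl := (6556 / 3125)) (Kh := (2097921 / 1000000))
    (Qb := (1250677 / 100000000)) (l := (2279 / 500)) (T1 := (2814227 / 10000)) (r1 := (838783 / 50000))
    (r2 := (26397 / 4000)) (r3 := (1562049 / 100000))
    (by norm_num) (by rfl) (by rfl) (by norm_num) h1 h2 (by norm_num) (by norm_num)
    (by norm_num) (by norm_num) Kl_132 Kh_132 (by norm_num) Q_250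
    (by norm_num) (by norm_num) (by norm_num) (by norm_num) (by norm_num) (by norm_num)
    (by norm_num) (by norm_num) (by norm_num) (by norm_num) (by norm_num) (by norm_num)
    (by norm_num) (by norm_num)

lemma row_8 {A : Fin n → Fin n → ℝ} (hA : ∀ i j, A i j ^ 2 = 1) (h1 : 277 ≤ n) (h2 : n ≤ 315) :
    ∃ y : Fin n → ℝ, (∀ j, y j = 1 ∨ y j = -1) ∧ ∀ i, |row A y i| ≤ (16 / 5) * √n :=
  row_num hA (a := 3) (n1 := 277) (n2 := 315) (q := 8) (tl := 14516666) (th := 14516670)
    (c := 16 / 5) (p := (34 / 25)) (x0 := (5 / 2)) (Kl := (184043 / 100000)) (Kh := (1840431 / 1000000))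
    (Qb := (1250677 / 100000000)) (l := (5197 / 1000)) (T1 := (3240927 / 10000)) (r1 := (900129 / 50000))
    (r2 := (26397 / 4000)) (r3 := (1664331 / 100000))
    (by norm_num) (by rfl) (by rfl) (by norm_num) h1 h2 (by norm_num) (by norm_num)
    (by norm_num) (by norm_num) Kl_136 Kh_136 (by norm_num) Q_250
    (by norm_num) (by norm_num) (by norm_num) (by norm_num) (by norm_num) (by norm_num)
    (by norm_num) (by norm_num) (by norm_num) (by norm_num) (by norm_num) (by norm_num)
    (by norm_num) (by norm_num)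

lemma row_9 {A : Fin n → Fin n → ℝ} (hA : ∀ i j, A i j ^ 2 = 1) (h1 : 316 ≤ n) (h2 : n ≤ 352) :
    ∃ y : Fin n → ℝ, (∀ j, y j = 1 ∨ y j = -1) ∧ ∀ i, |row A y i| ≤ (16 / 5) * √n :=
  row_num hA (a := 2) (n1 := 316) (n2 := 352) (q := 5) (tl := 9666666) (th := 9666668)
    (c := 16 / 5) (p := (67 / 50)) (x0 := (27 / 10)) (Kl := (49159 / 25000)) (Kh := (1966361 / 1000000))
    (Qb := (69691 / 10000000)) (l := (2671 / 500)) (T1 := (3463767 / 10000)) (r1 := (11632 / 625))
    (r2 := (538517 / 100000)) (r3 := (888819 / 50000))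
    (by norm_num) (by rfl) (by rfl) (by norm_num) h1 h2 (by norm_num) (by norm_num)
    (by norm_num) (by norm_num) Kl_134 Kh_134 (by norm_num) Q_270
    (by norm_num) (by norm_num) (by norm_num) (by norm_num) (by norm_num) (by norm_num)
    (by norm_num) (by norm_num) (by norm_num) (by norm_num) (by norm_num) (by norm_num)
    (by norm_num) (by norm_num)

lemma row_10 {A : Fin n → Fin n → ℝ} (hA : ∀ i j, A i j ^ 2 = 1) (h1 : 353 ≤ n) (h2 : n ≤ 391) :
    ∃ y : Fin n → ℝ, (∀ j, y j = 1 ∨ y j = -1) ∧ ∀ i, |row A y i| ≤ (16 / 5) * √n :=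
  row_num hA (a := 4) (n1 := 353) (n2 := 391) (q := 10) (tl := 19254760) (th := 19254766)
    (c := 16 / 5) (p := (67 / 50)) (x0 := (5 / 2)) (Kl := (49159 / 25000)) (Kh := (1966361 / 1000000))
    (Qb := (1250677 / 100000000)) (l := (616 / 125)) (T1 := (1023837 / 2500)) (r1 := (2023697 / 100000))
    (r2 := (760029 / 100000)) (r3 := (1878829 / 100000))
    (by norm_num) (by rfl) (by rfl) (by norm_num) h1 h2 (by norm_num) (by norm_num)
    (by norm_num) (by norm_num) Kl_134 Kh_134 (by norm_num) Q_250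
    (by norm_num) (by norm_num) (by norm_num) (by norm_num) (by norm_num) (by norm_num)
    (by norm_num) (by norm_num) (by norm_num) (by norm_num) (by norm_num) (by norm_num)
    (by norm_num) (by norm_num)

lemma row_11 {A : Fin n → Fin n → ℝ} (hA : ∀ i j, A i j ^ 2 = 1) (h1 : 392 ≤ n) (h2 : n ≤ 432) :
    ∃ y : Fin n → ℝ, (∀ j, y j = 1 ∨ y j = -1) ∧ ∀ i, |row A y i| ≤ (16 / 5) * √n :=
  row_num hA (a := 4) (n1 := 392) (n2 := 432) (q := 11) (tl := 19254760) (th := 19254766)
    (c := 16 / 5) (p := (137 / 100)) (x0 := (5 / 2)) (Kl := (222447 / 125000)) (Kh := (1779577 / 1000000))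
    (Qb := (1250677 / 100000000)) (l := (2773 / 500)) (T1 := (287663 / 625)) (r1 := (2145369 / 100000))
    (r2 := (760029 / 100000)) (r3 := (989949 / 50000))
    (by norm_num) (by rfl) (by rfl) (by norm_num) h1 h2 (by norm_num) (by norm_num)
    (by norm_num) (by norm_num) Kl_137 Kh_137 (by norm_num) Q_250
    (by norm_num) (by norm_num) (by norm_num) (by norm_num) (by norm_num) (by norm_num)
    (by norm_num) (by norm_num) (by norm_num) (by norm_num) (by norm_num) (by norm_num)
    (by norm_num) (by norm_num)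

lemma row_12 {A : Fin n → Fin n → ℝ} (hA : ∀ i j, A i j ^ 2 = 1) (h1 : 433 ≤ n) (h2 : n ≤ 487) :
    ∃ y : Fin n → ℝ, (∀ j, y j = 1 ∨ y j = -1) ∧ ∀ i, |row A y i| ≤ (16 / 5) * √n :=
  row_num hA (a := 3) (n1 := 433) (n2 := 487) (q := 8) (tl := 14516666) (th := 14516670)
    (c := 16 / 5) (p := (34 / 25)) (x0 := (53 / 20)) (Kl := (184043 / 100000)) (Kh := (1840431 / 1000000))
    (Qb := (809341 / 100000000)) (l := (1131 / 200)) (T1 := (4837567 / 10000)) (r1 := (2199447 / 100000))
    (r2 := (26397 / 4000)) (r3 := (416173 / 20000))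
    (by norm_num) (by rfl) (by rfl) (by norm_num) h1 h2 (by norm_num) (by norm_num)
    (by norm_num) (by norm_num) Kl_136 Kh_136 (by norm_num) Q_265
    (by norm_num) (by norm_num) (by norm_num) (by norm_num) (by norm_num) (by norm_num)
    (by norm_num) (by norm_num) (by norm_num) (by norm_num) (by norm_num) (by norm_num)
    (by norm_num) (by norm_num)

lemma row_13 {A : Fin n → Fin n → ℝ} (hA : ∀ i j, A i j ^ 2 = 1) (h1 : 488 ≤ n) (h2 : n ≤ 543) :
    ∃ y : Fin n → ℝ, (∀ j, y j = 1 ∨ y j = -1) ∧ ∀ i, |row A y i| ≤ (16 / 5) * √n :=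
  row_num hA (a := 5) (n1 := 488) (n2 := 543) (q := 12) (tl := 23935315) (th := 23935323)
    (c := 16 / 5) (p := (133 / 100)) (x0 := (51 / 20)) (Kl := (2031437 / 1000000)) (Kh := (1015719 / 500000))
    (Qb := (542103 / 50000000)) (l := (4919 / 1000)) (T1 := (2779817 / 5000)) (r1 := (73684 / 3125))
    (r2 := (169477 / 20000)) (r3 := (138067 / 6250))
    (by norm_num) (by rfl) (by rfl) (by norm_num) h1 h2 (by norm_num) (by norm_num)
    (by norm_num) (by norm_num) Kl_133 Kh_133 (by norm_num) Q_255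
    (by norm_num) (by norm_num) (by norm_num) (by norm_num) (by norm_num) (by norm_num)
    (by norm_num) (by norm_num) (by norm_num) (by norm_num) (by norm_num) (by norm_num)
    (by norm_num) (by norm_num)

lemma row_14 {A : Fin n → Fin n → ℝ} (hA : ∀ i j, A i j ^ 2 = 1) (h1 : 544 ≤ n) (h2 : n ≤ 604) :
    ∃ y : Fin n → ℝ, (∀ j, y j = 1 ∨ y j = -1) ∧ ∀ i, |row A y i| ≤ (16 / 5) * √n :=
  row_num hA (a := 4) (n1 := 544) (n2 := 604) (q := 10) (tl := 19254760) (th := 19254766)
    (c := 16 / 5) (p := (67 / 50)) (x0 := (53 / 20)) (Kl := (49159 / 25000)) (Kh := (1966361 / 1000000))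
    (Qb := (809341 / 100000000)) (l := (5371 / 1000)) (T1 := (378103 / 625)) (r1 := (614901 / 25000))
    (r2 := (760029 / 100000)) (r3 := (116619 / 5000))
    (by norm_num) (by rfl) (by rfl) (by norm_num) h1 h2 (by norm_num) (by norm_num)
    (by norm_num) (by norm_num) Kl_134 Kh_134 (by norm_num) Q_265
    (by norm_num) (by norm_num) (by norm_num) (by norm_num) (by norm_num) (by norm_num)
    (by norm_num) (by norm_num) (by norm_num) (by norm_num) (by norm_num) (by norm_num)
    (by norm_num) (by norm_num)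

lemma row_15 {A : Fin n → Fin n → ℝ} (hA : ∀ i j, A i j ^ 2 = 1) (h1 : 605 ≤ n) (h2 : n ≤ 668) :
    ∃ y : Fin n → ℝ, (∀ j, y j = 1 ∨ y j = -1) ∧ ∀ i, |row A y i| ≤ (16 / 5) * √n :=
  row_num hA (a := 4) (n1 := 605) (n2 := 668) (q := 11) (tl := 19254760) (th := 19254766)
    (c := 16 / 5) (p := (137 / 100)) (x0 := (53 / 20)) (Kl := (222447 / 125000)) (Kh := (1779577 / 1000000))
    (Qb := (809341 / 100000000)) (l := (5991 / 1000)) (T1 := (3390779 / 5000)) (r1 := (2604143 / 100000))
    (r2 := (760029 / 100000)) (r3 := (1229837 / 50000))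
    (by norm_num) (by rfl) (by rfl) (by norm_num) h1 h2 (by norm_num) (by norm_num)
    (by norm_num) (by norm_num) Kl_137 Kh_137 (by norm_num) Q_265
    (by norm_num) (by norm_num) (by norm_num) (by norm_num) (by norm_num) (by norm_num)
    (by norm_num) (by norm_num) (by norm_num) (by norm_num) (by norm_num) (by norm_num)
    (by norm_num) (by norm_num)

lemma row_16 {A : Fin n → Fin n → ℝ} (hA : ∀ i j, A i j ^ 2 = 1) (h1 : 669 ≤ n) (h2 : n ≤ 729) :
    ∃ y : Fin n → ℝ, (∀ j, y j = 1 ∨ y j = -1) ∧ ∀ i, |row A y i| ≤ (16 / 5) * √n :=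
  row_num hA (a := 7) (n1 := 669) (n2 := 729) (q := 16) (tl := 33202563) (th := 33202575)
    (c := 16 / 5) (p := (33 / 25)) (x0 := (51 / 20)) (Kl := (6556 / 3125)) (Kh := (2097921 / 1000000))
    (Qb := (542103 / 50000000)) (l := (2391 / 500)) (T1 := (3788573 / 5000)) (r1 := (1376331 / 50000))
    (r2 := (998037 / 100000)) (r3 := (2586503 / 100000))
    (by norm_num) (by rfl) (by rfl) (by norm_num) h1 h2 (by norm_num) (by norm_num)
    (by norm_num) (by norm_num) Kl_132 Kh_132 (by norm_num) Q_255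
    (by norm_num) (by norm_num) (by norm_num) (by norm_num) (by norm_num) (by norm_num)
    (by norm_num) (by norm_num) (by norm_num) (by norm_num) (by norm_num) (by norm_num)
    (by norm_num) (by norm_num)

lemma row_17 {A : Fin n → Fin n → ℝ} (hA : ∀ i j, A i j ^ 2 = 1) (h1 : 730 ≤ n) (h2 : n ≤ 794) :
    ∃ y : Fin n → ℝ, (∀ j, y j = 1 ∨ y j = -1) ∧ ∀ i, |row A y i| ≤ (16 / 5) * √n :=
  row_num hA (a := 8) (n1 := 730) (n2 := 794) (q := 20) (tl := 37807324) (th := 37807338)
    (c := 16 / 5) (p := (27 / 20)) (x0 := (5 / 2)) (Kl := (1902691 / 1000000)) (Kh := (475673 / 250000))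
    (Qb := (1250677 / 100000000)) (l := (5067 / 1000)) (T1 := (4225737 / 5000)) (r1 := (1453571 / 50000))
    (r2 := (532499 / 50000)) (r3 := (2701851 / 100000))
    (by norm_num) (by rfl) (by rfl) (by norm_num) h1 h2 (by norm_num) (by norm_num)
    (by norm_num) (by norm_num) Kl_135 Kh_135 (by norm_num) Q_250
    (by norm_num) (by norm_num) (by norm_num) (by norm_num) (by norm_num) (by norm_num)
    (by norm_num) (by norm_num) (by norm_num) (by norm_num) (by norm_num) (by norm_num)
    (by norm_num) (by norm_num)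

lemma row_18 {A : Fin n → Fin n → ℝ} (hA : ∀ i j, A i j ^ 2 = 1) (h1 : 795 ≤ n) (h2 : n ≤ 862) :
    ∃ y : Fin n → ℝ, (∀ j, y j = 1 ∨ y j = -1) ∧ ∀ i, |row A y i| ≤ (16 / 5) * √n :=
  row_num hA (a := 9) (n1 := 795) (n2 := 862) (q := 22) (tl := 42399235) (th := 42399251)
    (c := 16 / 5) (p := (67 / 50)) (x0 := (5 / 2)) (Kl := (49159 / 25000)) (Kh := (1966361 / 1000000))
    (Qb := (1250677 / 100000000)) (l := (4951 / 1000)) (T1 := (9193213 / 10000)) (r1 := (94751 / 3125))
    (r2 := (56391 / 5000)) (r3 := (1409787 / 50000))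
    (by norm_num) (by rfl) (by rfl) (by norm_num) h1 h2 (by norm_num) (by norm_num)
    (by norm_num) (by norm_num) Kl_134 Kh_134 (by norm_num) Q_250
    (by norm_num) (by norm_num) (by norm_num) (by norm_num) (by norm_num) (by norm_num)
    (by norm_num) (by norm_num) (by norm_num) (by norm_num) (by norm_num) (by norm_num)
    (by norm_num) (by norm_num)

lemma row_19 {A : Fin n → Fin n → ℝ} (hA : ∀ i j, A i j ^ 2 = 1) (h1 : 863 ≤ n) (h2 : n ≤ 930) :
    ∃ y : Fin n → ℝ, (∀ j, y j = 1 ∨ y j = -1) ∧ ∀ i, |row A y i| ≤ (16 / 5) * √n :=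
  row_num hA (a := 7) (n1 := 863) (n2 := 930) (q := 18) (tl := 33202563) (th := 33202575)
    (c := 16 / 5) (p := (27 / 20)) (x0 := (13 / 5)) (Kl := (1902691 / 1000000)) (Kh := (475673 / 250000))
    (Qb := (937797 / 100000000)) (l := (2747 / 500)) (T1 := (4870473 / 5000)) (r1 := (3121049 / 100000))
    (r2 := (998037 / 100000)) (r3 := (1468843 / 50000))
    (by norm_num) (by rfl) (by rfl) (by norm_num) h1 h2 (by norm_num) (by norm_num)
    (by norm_num) (by norm_num) Kl_135 Kh_135 (by norm_num) Q_260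
    (by norm_num) (by norm_num) (by norm_num) (by norm_num) (by norm_num) (by norm_num)
    (by norm_num) (by norm_num) (by norm_num) (by norm_num) (by norm_num) (by norm_num)
    (by norm_num) (by norm_num)

lemma row_20 {A : Fin n → Fin n → ℝ} (hA : ∀ i j, A i j ^ 2 = 1) (h1 : 931 ≤ n) (h2 : n ≤ 1013) :
    ∃ y : Fin n → ℝ, (∀ j, y j = 1 ∨ y j = -1) ∧ ∀ i, |row A y i| ≤ (16 / 5) * √n :=
  row_num hA (a := 8) (n1 := 931) (n2 := 1013) (q := 22) (tl := 37807324) (th := 37807338)
    (c := 16 / 5) (p := (69 / 50)) (x0 := (51 / 20)) (Kl := (1720127 / 1000000)) (Kh := (26877 / 15625))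
    (Qb := (542103 / 50000000)) (l := (1181 / 200)) (T1 := (5373587 / 5000)) (r1 := (3278289 / 100000))
    (r2 := (532499 / 50000)) (r3 := (3051229 / 100000))
    (by norm_num) (by rfl) (by rfl) (by norm_num) h1 h2 (by norm_num) (by norm_num)
    (by norm_num) (by norm_num) Kl_138 Kh_138 (by norm_num) Q_255
    (by norm_num) (by norm_num) (by norm_num) (by norm_num) (by norm_num) (by norm_num)
    (by norm_num) (by norm_num) (by norm_num) (by norm_num) (by norm_num) (by norm_num)
    (by norm_num) (by norm_num)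

lemma row_21 {A : Fin n → Fin n → ℝ} (hA : ∀ i j, A i j ^ 2 = 1) (h1 : 1014 ≤ n) (h2 : n ≤ 1112) :
    ∃ y : Fin n → ℝ, (∀ j, y j = 1 ∨ y j = -1) ∧ ∀ i, |row A y i| ≤ (16 / 5) * √n :=
  row_num hA (a := 9) (n1 := 1014) (n2 := 1112) (q := 21) (tl := 42399235) (th := 42399251)
    (c := 16 / 5) (p := (133 / 100)) (x0 := (13 / 5)) (Kl := (2031437 / 1000000)) (Kh := (1015719 / 500000))
    (Qb := (937797 / 100000000)) (l := (1007 / 200)) (T1 := (11351343 / 10000)) (r1 := (421147 / 12500))
    (r2 := (56391 / 5000)) (r3 := (199021 / 6250))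
    (by norm_num) (by rfl) (by rfl) (by norm_num) h1 h2 (by norm_num) (by norm_num)
    (by norm_num) (by norm_num) Kl_133 Kh_133 (by norm_num) Q_260
    (by norm_num) (by norm_num) (by norm_num) (by norm_num) (by norm_num) (by norm_num)
    (by norm_num) (by norm_num) (by norm_num) (by norm_num) (by norm_num) (by norm_num)
    (by norm_num) (by norm_num)

lemma row_22 {A : Fin n → Fin n → ℝ} (hA : ∀ i j, A i j ^ 2 = 1) (h1 : 1113 ≤ n) (h2 : n ≤ 1198) :
    ∃ y : Fin n → ℝ, (∀ j, y j = 1 ∨ y j = -1) ∧ ∀ i, |row A y i| ≤ (16 / 5) * √n :=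
  row_num hA (a := 11) (n1 := 1113) (n2 := 1198) (q := 30) (tl := 51554914) (th := 51554934)
    (c := 16 / 5) (p := (69 / 50)) (x0 := (5 / 2)) (Kl := (1720127 / 1000000)) (Kh := (26877 / 15625))
    (Qb := (1250677 / 100000000)) (l := (5743 / 1000)) (T1 := (260769 / 200)) (r1 := (22568 / 625))
    (r2 := (310911 / 25000)) (r3 := (667233 / 20000))
    (by norm_num) (by rfl) (by rfl) (by norm_num) h1 h2 (by norm_num) (by norm_num)
    (by norm_num) (by norm_num) Kl_138 Kh_138 (by norm_num) Q_250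
    (by norm_num) (by norm_num) (by norm_num) (by norm_num) (by norm_num) (by norm_num)
    (by norm_num) (by norm_num) (by norm_num) (by norm_num) (by norm_num) (by norm_num)
    (by norm_num) (by norm_num)

lemma row_23 {A : Fin n → Fin n → ℝ} (hA : ∀ i j, A i j ^ 2 = 1) (h1 : 1199 ≤ n) (h2 : n ≤ 1289) :
    ∃ y : Fin n → ℝ, (∀ j, y j = 1 ∨ y j = -1) ∧ ∀ i, |row A y i| ≤ (16 / 5) * √n :=
  row_num hA (a := 9) (n1 := 1199) (n2 := 1289) (q := 21) (tl := 42399235) (th := 42399251)
    (c := 16 / 5) (p := (133 / 100)) (x0 := (53 / 20)) (Kl := (2031437 / 1000000)) (Kh := (1015719 / 500000))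
    (Qb := (809341 / 100000000)) (l := (2603 / 500)) (T1 := (13237253 / 10000)) (r1 := (113697 / 3125))
    (r2 := (56391 / 5000)) (r3 := (3462657 / 100000))
    (by norm_num) (by rfl) (by rfl) (by norm_num) h1 h2 (by norm_num) (by norm_num)
    (by norm_num) (by norm_num) Kl_133 Kh_133 (by norm_num) Q_265
    (by norm_num) (by norm_num) (by norm_num) (by norm_num) (by norm_num) (by norm_num)
    (by norm_num) (by norm_num) (by norm_num) (by norm_num) (by norm_num) (by norm_num)
    (by norm_num) (by norm_num)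

lemma row_24 {A : Fin n → Fin n → ℝ} (hA : ∀ i j, A i j ^ 2 = 1) (h1 : 1290 ≤ n) (h2 : n ≤ 1382) :
    ∃ y : Fin n → ℝ, (∀ j, y j = 1 ∨ y j = -1) ∧ ∀ i, |row A y i| ≤ (16 / 5) * √n :=
  row_num hA (a := 11) (n1 := 1290) (n2 := 1382) (q := 30) (tl := 51554914) (th := 51554934)
    (c := 16 / 5) (p := (69 / 50)) (x0 := (51 / 20)) (Kl := (1720127 / 1000000)) (Kh := (26877 / 15625))
    (Qb := (542103 / 50000000)) (l := (1179 / 200)) (T1 := (297081 / 200)) (r1 := (240881 / 6250))
    (r2 := (310911 / 25000)) (r3 := (448957 / 12500))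
    (by norm_num) (by rfl) (by rfl) (by norm_num) h1 h2 (by norm_num) (by norm_num)
    (by norm_num) (by norm_num) Kl_138 Kh_138 (by norm_num) Q_255
    (by norm_num) (by norm_num) (by norm_num) (by norm_num) (by norm_num) (by norm_num)
    (by norm_num) (by norm_num) (by norm_num) (by norm_num) (by norm_num) (by norm_num)
    (by norm_num) (by norm_num)

lemma row_25 {A : Fin n → Fin n → ℝ} (hA : ∀ i j, A i j ^ 2 = 1) (h1 : 1383 ≤ n) (h2 : n ≤ 1481) :
    ∃ y : Fin n → ℝ, (∀ j, y j = 1 ∨ y j = -1) ∧ ∀ i, |row A y i| ≤ (16 / 5) * √n :=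
  row_num hA (a := 14) (n1 := 1383) (n2 := 1481) (q := 33) (tl := 65240752) (th := 65240778)
    (c := 16 / 5) (p := (133 / 100)) (x0 := (51 / 20)) (Kl := (2031437 / 1000000)) (Kh := (1015719 / 500000))
    (Qb := (542103 / 50000000)) (l := (2481 / 500)) (T1 := (3924967 / 2500)) (r1 := (1981153 / 50000))
    (r2 := (43719 / 3125)) (r3 := (371887 / 10000))
    (by norm_num) (by rfl) (by rfl) (by norm_num) h1 h2 (by norm_num) (by norm_num)
    (by norm_num) (by norm_num) Kl_133 Kh_133 (by norm_num) Q_255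
    (by norm_num) (by norm_num) (by norm_num) (by norm_num) (by norm_num) (by norm_num)
    (by norm_num) (by norm_num) (by norm_num) (by norm_num) (by norm_num) (by norm_num)
    (by norm_num) (by norm_num)

lemma row_26 {A : Fin n → Fin n → ℝ} (hA : ∀ i j, A i j ^ 2 = 1) (h1 : 1482 ≤ n) (h2 : n ≤ 1597) :
    ∃ y : Fin n → ℝ, (∀ j, y j = 1 ∨ y j = -1) ∧ ∀ i, |row A y i| ≤ (16 / 5) * √n :=
  row_num hA (a := 11) (n1 := 1482) (n2 := 1597) (q := 30) (tl := 51554914) (th := 51554934)
    (c := 16 / 5) (p := (69 / 50)) (x0 := (13 / 5)) (Kl := (1720127 / 1000000)) (Kh := (26877 / 15625))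
    (Qb := (937797 / 100000000)) (l := (6037 / 1000)) (T1 := (336333 / 200)) (r1 := (4100811 / 100000))
    (r2 := (310911 / 25000)) (r3 := (153987 / 4000))
    (by norm_num) (by rfl) (by rfl) (by norm_num) h1 h2 (by norm_num) (by norm_num)
    (by norm_num) (by norm_num) Kl_138 Kh_138 (by norm_num) Q_260
    (by norm_num) (by norm_num) (by norm_num) (by norm_num) (by norm_num) (by norm_num)
    (by norm_num) (by norm_num) (by norm_num) (by norm_num) (by norm_num) (by norm_num)
    (by norm_num) (by norm_num)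

lemma row_27 {A : Fin n → Fin n → ℝ} (hA : ∀ i j, A i j ^ 2 = 1) (h1 : 1598 ≤ n) (h2 : n ≤ 1748) :
    ∃ y : Fin n → ℝ, (∀ j, y j = 1 ∨ y j = -1) ∧ ∀ i, |row A y i| ≤ (16 / 5) * √n :=
  row_num hA (a := 15) (n1 := 1598) (n2 := 1748) (q := 38) (tl := 69793707) (th := 69793735)
    (c := 16 / 5) (p := (34 / 25)) (x0 := (51 / 20)) (Kl := (184043 / 100000)) (Kh := (1840431 / 1000000))
    (Qb := (542103 / 50000000)) (l := (668 / 125)) (T1 := (9129329 / 5000)) (r1 := (534127 / 12500))
    (r2 := (723501 / 50000)) (r3 := (3997499 / 100000))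
    (by norm_num) (by rfl) (by rfl) (by norm_num) h1 h2 (by norm_num) (by norm_num)
    (by norm_num) (by norm_num) Kl_136 Kh_136 (by norm_num) Q_255
    (by norm_num) (by norm_num) (by norm_num) (by norm_num) (by norm_num) (by norm_num)
    (by norm_num) (by norm_num) (by norm_num) (by norm_num) (by norm_num) (by norm_num)
    (by norm_num) (by norm_num)

lemma row_28 {A : Fin n → Fin n → ℝ} (hA : ∀ i j, A i j ^ 2 = 1) (h1 : 1749 ≤ n) (h2 : n ≤ 1892) :
    ∃ y : Fin n → ℝ, (∀ j, y j = 1 ∨ y j = -1) ∧ ∀ i, |row A y i| ≤ (16 / 5) * √n :=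
  row_num hA (a := 15) (n1 := 1749) (n2 := 1892) (q := 36) (tl := 69793707) (th := 69793735)
    (c := 16 / 5) (p := (67 / 50)) (x0 := (13 / 5)) (Kl := (49159 / 25000)) (Kh := (1966361 / 1000000))
    (Qb := (937797 / 100000000)) (l := (5201 / 1000)) (T1 := (9805149 / 5000)) (r1 := (138386 / 3125))
    (r2 := (723501 / 50000)) (r3 := (522763 / 12500))
    (by norm_num) (by rfl) (by rfl) (by norm_num) h1 h2 (by norm_num) (by norm_num)
    (by norm_num) (by norm_num) Kl_134 Kh_134 (by norm_num) Q_260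
    (by norm_num) (by norm_num) (by norm_num) (by norm_num) (by norm_num) (by norm_num)
    (by norm_num) (by norm_num) (by norm_num) (by norm_num) (by norm_num) (by norm_num)
    (by norm_num) (by norm_num)

lemma row_29 {A : Fin n → Fin n → ℝ} (hA : ∀ i j, A i j ^ 2 = 1) (h1 : 1893 ≤ n) (h2 : n ≤ 2037) :
    ∃ y : Fin n → ℝ, (∀ j, y j = 1 ∨ y j = -1) ∧ ∀ i, |row A y i| ≤ (16 / 5) * √n :=
  row_num hA (a := 13) (n1 := 1893) (n2 := 2037) (q := 33) (tl := 60683773) (th := 60683797)
    (c := 16 / 5) (p := (34 / 25)) (x0 := (53 / 20)) (Kl := (184043 / 100000)) (Kh := (1840431 / 1000000))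
    (Qb := (809341 / 100000000)) (l := (708 / 125)) (T1 := (10507979 / 5000)) (r1 := (4584317 / 100000))
    (r2 := (269853 / 20000)) (r3 := (4350861 / 100000))
    (by norm_num) (by rfl) (by rfl) (by norm_num) h1 h2 (by norm_num) (by norm_num)
    (by norm_num) (by norm_num) Kl_136 Kh_136 (by norm_num) Q_265
    (by norm_num) (by norm_num) (by norm_num) (by norm_num) (by norm_num) (by norm_num)
    (by norm_num) (by norm_num) (by norm_num) (by norm_num) (by norm_num) (by norm_num)
    (by norm_num) (by norm_num)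

lemma row_30 {A : Fin n → Fin n → ℝ} (hA : ∀ i j, A i j ^ 2 = 1) (h1 : 2038 ≤ n) (h2 : n ≤ 2204) :
    ∃ y : Fin n → ℝ, (∀ j, y j = 1 ∨ y j = -1) ∧ ∀ i, |row A y i| ≤ (16 / 5) * √n :=
  row_num hA (a := 19) (n1 := 2038) (n2 := 2204) (q := 48) (tl := 87974556) (th := 87974592)
    (c := 16 / 5) (p := (34 / 25)) (x0 := (51 / 20)) (Kl := (184043 / 100000)) (Kh := (1840431 / 1000000))
    (Qb := (542103 / 50000000)) (l := (5351 / 1000)) (T1 := (11629113 / 5000)) (r1 := (4822679 / 100000))
    (r2 := (812287 / 50000)) (r3 := (4514421 / 100000))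
    (by norm_num) (by rfl) (by rfl) (by norm_num) h1 h2 (by norm_num) (by norm_num)
    (by norm_num) (by norm_num) Kl_136 Kh_136 (by norm_num) Q_255
    (by norm_num) (by norm_num) (by norm_num) (by norm_num) (by norm_num) (by norm_num)
    (by norm_num) (by norm_num) (by norm_num) (by norm_num) (by norm_num) (by norm_num)
    (by norm_num) (by norm_num)

lemma row_31 {A : Fin n → Fin n → ℝ} (hA : ∀ i j, A i j ^ 2 = 1) (h1 : 2205 ≤ n) (h2 : n ≤ 2397) :
    ∃ y : Fin n → ℝ, (∀ j, y j = 1 ∨ y j = -1) ∧ ∀ i, |row A y i| ≤ (16 / 5) * √n :=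
  row_num hA (a := 20) (n1 := 2205) (n2 := 2397) (q := 52) (tl := 92513691) (th := 92513729)
    (c := 16 / 5) (p := (137 / 100)) (x0 := (51 / 20)) (Kl := (222447 / 125000)) (Kh := (1779577 / 1000000))
    (Qb := (542103 / 50000000)) (l := (2771 / 500)) (T1 := (12628489 / 5000)) (r1 := (5025633 / 100000))
    (r2 := (1665957 / 100000)) (r3 := (2347871 / 50000))
    (by norm_num) (by rfl) (by rfl) (by norm_num) h1 h2 (by norm_num) (by norm_num)
    (by norm_num) (by norm_num) Kl_137 Kh_137 (by norm_num) Q_255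
    (by norm_num) (by norm_num) (by norm_num) (by norm_num) (by norm_num) (by norm_num)
    (by norm_num) (by norm_num) (by norm_num) (by norm_num) (by norm_num) (by norm_num)
    (by norm_num) (by norm_num)

lemma row_32 {A : Fin n → Fin n → ℝ} (hA : ∀ i j, A i j ^ 2 = 1) (h1 : 2398 ≤ n) (h2 : n ≤ 2592) :
    ∃ y : Fin n → ℝ, (∀ j, y j = 1 ∨ y j = -1) ∧ ∀ i, |row A y i| ≤ (16 / 5) * √n :=
  row_num hA (a := 20) (n1 := 2398) (n2 := 2592) (q := 49) (tl := 92513691) (th := 92513729)
    (c := 16 / 5) (p := (27 / 20)) (x0 := (13 / 5)) (Kl := (1902691 / 1000000)) (Kh := (475673 / 250000))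
    (Qb := (937797 / 100000000)) (l := (2663 / 500)) (T1 := (13457439 / 5000)) (r1 := (1296989 / 25000))
    (r2 := (1665957 / 100000)) (r3 := (4896937 / 100000))
    (by norm_num) (by rfl) (by rfl) (by norm_num) h1 h2 (by norm_num) (by norm_num)
    (by norm_num) (by norm_num) Kl_135 Kh_135 (by norm_num) Q_260
    (by norm_num) (by norm_num) (by norm_num) (by norm_num) (by norm_num) (by norm_num)
    (by norm_num) (by norm_num) (by norm_num) (by norm_num) (by norm_num) (by norm_num)
    (by norm_num) (by norm_num)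

lemma row_33 {A : Fin n → Fin n → ℝ} (hA : ∀ i j, A i j ^ 2 = 1) (h1 : 2593 ≤ n) (h2 : n ≤ 2811) :
    ∃ y : Fin n → ℝ, (∀ j, y j = 1 ∨ y j = -1) ∧ ∀ i, |row A y i| ≤ (16 / 5) * √n :=
  row_num hA (a := 21) (n1 := 2593) (n2 := 2811) (q := 53) (tl := 97050886) (th := 97050926)
    (c := 16 / 5) (p := (34 / 25)) (x0 := (13 / 5)) (Kl := (184043 / 100000)) (Kh := (1840431 / 1000000))
    (Qb := (937797 / 100000000)) (l := (687 / 125)) (T1 := (2918339 / 1000)) (r1 := (2701083 / 50000))
    (r2 := (21329 / 1250)) (r3 := (101843 / 2000))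
    (by norm_num) (by rfl) (by rfl) (by norm_num) h1 h2 (by norm_num) (by norm_num)
    (by norm_num) (by norm_num) Kl_136 Kh_136 (by norm_num) Q_260
    (by norm_num) (by norm_num) (by norm_num) (by norm_num) (by norm_num) (by norm_num)
    (by norm_num) (by norm_num) (by norm_num) (by norm_num) (by norm_num) (by norm_num)
    (by norm_num) (by norm_num)

theorem medium {A : Fin n → Fin n → ℝ} (hA : ∀ i j, A i j ^ 2 = 1) (h1 : 84 ≤ n)
    (h2 : n ≤ 2811) :
    ∃ y : Fin n → ℝ, (∀ j, y j = 1 ∨ y j = -1) ∧ ∀ i, |row A y i| ≤ (16 / 5) * √n := by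
  rcases Nat.lt_or_ge 104 n with g | g
  swap
  · exact row_0 hA (by omega) g
  rcases Nat.lt_or_ge 120 n with g | g
  swap
  · exact row_1 hA (by omega) g
  rcases Nat.lt_or_ge 140 n with g | g
  swap
  · exact row_2 hA (by omega) g
  rcases Nat.lt_or_ge 162 n with g | g
  swap
  · exact row_3 hA (by omega) g
  rcases Nat.lt_or_ge 187 n with g | g
  swap
  · exact row_4 hA (by omega) g
  rcases Nat.lt_or_ge 212 n with g | g
  swap
  · exact row_5 hA (by omega) g
  rcases Nat.lt_or_ge 243 n with g | g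
  swap
  · exact row_6 hA (by omega) g
  rcases Nat.lt_or_ge 276 n with g | g
  swap
  · exact row_7 hA (by omega) g
  rcases Nat.lt_or_ge 315 n with g | g
  swap
  · exact row_8 hA (by omega) g
  rcases Nat.lt_or_ge 352 n with g | g
  swap
  · exact row_9 hA (by omega) g
  rcases Nat.lt_or_ge 391 n with g | g
  swap
  · exact row_10 hA (by omega) g
  rcases Nat.lt_or_ge 432 n with g | g
  swap
  · exact row_11 hA (by omega) g
  rcases Nat.lt_or_ge 487 n with g | g
  swap
  · exact row_12 hA (by omega) g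
  rcases Nat.lt_or_ge 543 n with g | g
  swap
  · exact row_13 hA (by omega) g
  rcases Nat.lt_or_ge 604 n with g | g
  swap
  · exact row_14 hA (by omega) g
  rcases Nat.lt_or_ge 668 n with g | g
  swap
  · exact row_15 hA (by omega) g
  rcases Nat.lt_or_ge 729 n with g | g
  swap
  · exact row_16 hA (by omega) g
  rcases Nat.lt_or_ge 794 n with g | g
  swap
  · exact row_17 hA (by omega) g
  rcases Nat.lt_or_ge 862 n with g | g
  swap
  · exact row_18 hA (by omega) g
  rcases Nat.lt_or_ge 930 n with g | g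
  swap
  · exact row_19 hA (by omega) g
  rcases Nat.lt_or_ge 1013 n with g | g
  swap
  · exact row_20 hA (by omega) g
  rcases Nat.lt_or_ge 1112 n with g | g
  swap
  · exact row_21 hA (by omega) g
  rcases Nat.lt_or_ge 1198 n with g | g
  swap
  · exact row_22 hA (by omega) g
  rcases Nat.lt_or_ge 1289 n with g | g
  swap
  · exact row_23 hA (by omega) g
  rcases Nat.lt_or_ge 1382 n with g | g
  swap
  · exact row_24 hA (by omega) g
  rcases Nat.lt_or_ge 1481 n with g | g
  swap
  · exact row_25 hA (by omega) g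
  rcases Nat.lt_or_ge 1597 n with g | g
  swap
  · exact row_26 hA (by omega) g
  rcases Nat.lt_or_ge 1748 n with g | g
  swap
  · exact row_27 hA (by omega) g
  rcases Nat.lt_or_ge 1892 n with g | g
  swap
  · exact row_28 hA (by omega) g
  rcases Nat.lt_or_ge 2037 n with g | g
  swap
  · exact row_29 hA (by omega) g
  rcases Nat.lt_or_ge 2204 n with g | g
  swap
  · exact row_30 hA (by omega) g
  rcases Nat.lt_or_ge 2397 n with g | g
  swap
  · exact row_31 hA (by omega) g
  rcases Nat.lt_or_ge 2592 n with g | g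
  swap
  · exact row_32 hA (by omega) g
  exact row_33 hA (by omega) h2

end Pool.Agent.Lib.MP_ad55ca_co.Upper
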