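import Pool.Agent.Lib.MP_ad55ca_co.Upper.Stage

/-!
# MP_ad55ca_co (upper bound): the union bound for small matrices
-/

open Filter Topology MeasureTheory Set

noncomputable section

namespace Pool.Agent.Lib.MP_ad55ca_co.Upper

variable {n : ℕ}

/-- the sign attached to a Boolean -/
def sg (b : Bool) : ℝ := if b then 1 else -1

lemma sg_eq (b : Bool) : sg b = 1 ∨ sg b = -1 := by cases b <;> simp [sg]

lemma sum_exp (a : Fin n → ℝ) (ha : ∀ j, a j ^ 2 = 1) (l : ℝ) :
    ∑ y : Fin n → Bool, Real.exp (l * ∑ j, a j * sg (y j)) ≤ 2 ^ n * Real.exp (n * (l ^ 2 / 2)) := by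
  have e1 : ∀ y : Fin n → Bool, Real.exp (l * ∑ j, a j * sg (y j)) =
      ∏ j, Real.exp (l * (a j * sg (y j))) := by
    intro y
    rw [Finset.mul_sum, Real.exp_sum]
  simp only [e1]
  have e2 : ∏ j : Fin n, ∑ b : Bool, Real.exp (l * (a j * sg b)) =
      ∑ y : Fin n → Bool, ∏ j, Real.exp (l * (a j * sg (y j))) := by
    rw [Finset.prod_univ_sum, Fintype.piFinset_univ]
  rw [← e2]
  have e3 : ∀ j : Fin n, ∑ b : Bool, Real.exp (l * (a j * sg b)) ≤ 2 * Real.exp (l ^ 2 / 2) := by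
    intro j
    have h1 : ∑ b : Bool, Real.exp (l * (a j * sg b)) = 2 * Real.cosh (l * a j) := by
      have s1 : sg true = 1 := by simp [sg]
      have s2 : sg false = -1 := by simp [sg]
      rw [Fintype.sum_bool, Real.cosh_eq, s1, s2, mul_one, mul_neg_one, mul_neg]
      ring
    rw [h1]
    have h2 := Real.cosh_le_exp_half_sq (l * a j)
    have h3 : (l * a j) ^ 2 = l ^ 2 := by rw [mul_pow, ha j, mul_one]
    rw [h3] at h2
    linarith
  calc ∏ j : Fin n, ∑ b : Bool, Real.exp (l * (a j * sg b))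
      ≤ ∏ _j : Fin n, (2 * Real.exp (l ^ 2 / 2)) := by
        refine Finset.prod_le_prod (fun j _ => Finset.sum_nonneg fun b _ => (Real.exp_pos _).le)
          fun j _ => e3 j
    _ = 2 ^ n * Real.exp (n * (l ^ 2 / 2)) := by
        rw [Finset.prod_const, Finset.card_univ, Fintype.card_fin, mul_pow, ← Real.exp_nat_mul]

/-- the union bound -/
theorem union_bound {A : Fin n → Fin n → ℝ} (hA : ∀ i j, A i j ^ 2 = 1) (hn : 1 ≤ n) {c : ℝ}
    (hc : 0 < c) (h : 2 * (n : ℝ) ≤ Real.exp (c ^ 2 / 2)) :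
    ∃ y : Fin n → ℝ, (∀ j, y j = 1 ∨ y j = -1) ∧ ∀ i, |row A y i| ≤ c * √n := by
  have hn' : (0 : ℝ) < n := by exact_mod_cast hn
  have hsn : 0 < √(n : ℝ) := Real.sqrt_pos.mpr hn'
  have hsq : √(n : ℝ) ^ 2 = n := Real.sq_sqrt hn'.le
  set l : ℝ := c / √n with hl
  have hl0 : 0 < l := div_pos hc hsn
  have hl2 : n * (l ^ 2 / 2) = c ^ 2 / 2 := by
    rw [hl, div_pow, hsq]; field_simp
  set Φ : (Fin n → Bool) → ℝ := fun y => ∑ i, (Real.exp (l * ∑ j, A i j * sg (y j)) +
    Real.exp (l * ∑ j, (- A i j) * sg (y j))) with hΦ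
  have h1 : ∑ y, Φ y ≤ ∑ _y : Fin n → Bool, (2 * n * Real.exp (c ^ 2 / 2)) := by
    simp only [hΦ]
    rw [Finset.sum_comm]
    have h2 : ∀ i : Fin n, ∑ y : Fin n → Bool, (Real.exp (l * ∑ j, A i j * sg (y j)) +
        Real.exp (l * ∑ j, (- A i j) * sg (y j))) ≤ 2 * (2 ^ n * Real.exp (c ^ 2 / 2)) := by
      intro i
      rw [Finset.sum_add_distrib, ← hl2]
      have h3 := sum_exp (fun j => A i j) (fun j => hA i j) l
      have h4 := sum_exp (fun j => - A i j) (fun j => by rw [neg_sq]; exact hA i j) l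
      linarith
    refine (Finset.sum_le_sum fun i _ => h2 i).trans ?_
    simp only [Finset.sum_const, Finset.card_univ, Fintype.card_fin, Fintype.card_pi,
      Fintype.card_bool, Finset.prod_const, nsmul_eq_mul]
    push_cast
    apply le_of_eq
    ring
  obtain ⟨y, -, hy⟩ := Finset.exists_le_of_sum_le (Finset.univ_nonempty) h1
  refine ⟨fun j => sg (y j), fun j => sg_eq _, fun i => ?_⟩
  by_contra hcon
  push Not at hcon
  have h5 : Real.exp (c ^ 2) < Real.exp (l * |row A (fun j => sg (y j)) i|) := by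
    apply Real.exp_lt_exp.mpr
    have : c ^ 2 = l * (c * √n) := by rw [hl]; field_simp
    rw [this]
    exact mul_lt_mul_of_pos_left hcon hl0
  have h6 : Real.exp (l * |row A (fun j => sg (y j)) i|) ≤ Φ y := by
    have h7 : Real.exp (l * |row A (fun j => sg (y j)) i|) ≤
        Real.exp (l * ∑ j, A i j * sg (y j)) + Real.exp (l * ∑ j, (- A i j) * sg (y j)) := by
      have e : l * ∑ j, (- A i j) * sg (y j) = l * -(∑ j, A i j * sg (y j)) := by
        rw [← Finset.sum_neg_distrib]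
        congr 1
        exact Finset.sum_congr rfl fun j _ => by ring
      rw [e]
      unfold row
      rcases abs_cases (∑ j, A i j * sg (y j)) with ⟨hs, _⟩ | ⟨hs, _⟩
      · rw [hs]; linarith [Real.exp_pos (l * -(∑ j, A i j * sg (y j)))]
      · rw [hs]; linarith [Real.exp_pos (l * (∑ j, A i j * sg (y j)))]
    refine h7.trans ?_
    exact Finset.single_le_sum (f := fun i => Real.exp (l * ∑ j, A i j * sg (y j)) +
      Real.exp (l * ∑ j, (- A i j) * sg (y j)))
      (fun i _ => add_nonneg (Real.exp_pos _).le (Real.exp_pos _).le) (Finset.mem_univ i)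
  have h8 : Real.exp (c ^ 2) = Real.exp (c ^ 2 / 2) * Real.exp (c ^ 2 / 2) := by
    rw [← Real.exp_add]; congr 1; ring
  have h9 := mul_le_mul_of_nonneg_right h (Real.exp_pos (c ^ 2 / 2)).le
  rw [← h8] at h9
  linarith

end Pool.Agent.Lib.MP_ad55ca_co.Upper
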